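import Pool.Agent.MP_e9d43c_an.H44.Tree

/-!
Two isometries with orthogonal ranges in a C*-algebra: the tree model is approximately realized
inside the algebra, so the expander unitaries are not compressions of a given tuple.
-/

namespace Pool.Agent.MP_e9d43c_an.H44

open Finset Matrix Filter

variable {O : Type*} [CStarAlgebra O]

/-- `s 0` and `s 1` are isometries with orthogonal ranges. -/
def Iso {R : Type*} [Ring R] [StarRing R] (s : ℕ → R) : Prop :=
  ∀ i < 2, ∀ j < 2, star (s i) * s j = if i = j then 1 else 0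

/-- The word of length `l` spelling `n` in binary, followed by a marker. -/
def wrd (s : ℕ → O) : ℕ → ℕ → O
  | 0, _ => s 1
  | l + 1, n => s (n % 2) * wrd s l (n / 2)

lemma wrd_orth {s : ℕ → O} (hs : Iso s) (l : ℕ) : ∀ l' n n', n < 2 ^ l → n' < 2 ^ l → l ≤ l' →
    star (wrd s l n) * wrd s l' n' = if l = l' ∧ n = n' then 1 else 0 := by
  induction l with
  | zero =>
    intro l' n n' h1 h2 _
    obtain rfl : n = 0 := by omega
    obtain rfl : n' = 0 := by omega
    rcases l' with _ | l'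
    · simpa [wrd] using hs 1 (by norm_num) 1 (by norm_num)
    · have := hs 1 (by norm_num) 0 (by norm_num)
      simp only [wrd, Nat.zero_mod, ← mul_assoc, this]
      simp
  | succ l ih =>
    intro l' n n' h1 h2 h3
    obtain ⟨m, rfl⟩ : ∃ m, l' = m + 1 := ⟨l' - 1, by omega⟩
    have := hs (n % 2) (Nat.mod_lt _ two_pos) (n' % 2) (Nat.mod_lt _ two_pos)
    rw [wrd, wrd, star_mul, mul_assoc, ← mul_assoc (star (s (n % 2))), this]
    by_cases h : n % 2 = n' % 2
    · rw [if_pos h, one_mul, ih m (n / 2) (n' / 2) (by omega) (by omega) (by omega)]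
      exact if_congr (by omega) rfl rfl
    · rw [if_neg h, zero_mul, mul_zero, if_neg (by omega)]

/-- The approximate realization of finitely supported vectors in the algebra. -/
noncomputable def J (s : ℕ → O) (M : ℕ) : Vec →ₗ[ℂ] O :=
  Finsupp.linearCombination ℂ fun ω => wrd s ((M : ℤ) + ω.1).toNat ω.2

lemma J_single (s : ℕ → O) (M : ℕ) (ω : Om) :
    J s M (Finsupp.single ω 1) = wrd s ((M : ℤ) + ω.1).toNat ω.2 := by simp [J]

lemma gram {s : ℕ → O} (hs : Iso s) (h : Vec) :
    ∀ᶠ M in atTop, star (J s M h) * J s M h = ((nsq h : ℝ) : ℂ) • (1 : O) := by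
  have key : ∀ ω ω' : Om, ∀ᶠ M : ℕ in atTop,
      star (wrd s ((M : ℤ) + ω.1).toNat ω.2) * wrd s ((M : ℤ) + ω'.1).toNat ω'.2 =
        if ω = ω' then 1 else 0 := by
    rintro ⟨k, n⟩ ⟨k', n'⟩
    filter_upwards [eventually_ge_atTop (n + n' + k.natAbs + k'.natAbs)] with M hM
    have b : ∀ l a : ℕ, a ≤ l → a < 2 ^ l := fun l a h =>
      lt_of_le_of_lt h Nat.lt_two_pow_self
    rcases le_total ((M : ℤ) + k).toNat ((M : ℤ) + k').toNat with hle | hle
    · rw [wrd_orth hs _ _ _ _ (b _ _ (by omega)) (b _ _ (by omega)) hle]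
      exact if_congr (by simp only [Prod.mk.injEq]; omega) rfl rfl
    · have := congrArg star (wrd_orth hs _ _ n' n (b _ _ (by omega)) (b _ _ (by omega)) hle)
      rw [star_mul, star_star, apply_ite star, star_one, star_zero] at this
      rw [this]
      exact if_congr (by simp only [Prod.mk.injEq]; omega) rfl rfl
  have all : ∀ᶠ M : ℕ in atTop, ∀ ω ∈ h.support, ∀ ω' ∈ h.support,
      star (wrd s ((M : ℤ) + ω.1).toNat ω.2) * wrd s ((M : ℤ) + ω'.1).toNat ω'.2 =
        if ω = ω' then 1 else 0 :=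
    (eventually_all_finset _).2 fun ω _ => (eventually_all_finset _).2 fun ω' _ => key ω ω'
  filter_upwards [all] with M hM
  rw [J, Finsupp.linearCombination_apply, Finsupp.sum, star_sum, sum_mul_sum, nsq]
  push_cast
  rw [sum_smul]
  refine sum_congr rfl fun ω hω => ?_
  rw [sum_eq_single ω]
  · rw [star_smul, smul_mul_smul_comm, hM ω hω ω hω, if_pos rfl, Complex.star_def,
      Complex.conj_mul']
  · intro ω' hω' hne
    rw [star_smul, smul_mul_smul_comm, hM ω hω ω' hω', if_neg hne.symm, smul_zero]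
  · exact fun h' => absurd hω h'

lemma norm_sq_of_gram [Nontrivial O] {a : O} {r : ℝ} (hr : 0 ≤ r)
    (h : star a * a = (r : ℂ) • (1 : O)) : ‖a‖ ^ 2 = r := by
  have := CStarRing.norm_star_mul_self (x := a)
  rw [h, norm_smul, norm_one, mul_one, Complex.norm_real, Real.norm_of_nonneg hr] at this
  rw [this, pow_two]

/-- `T` describes left multiplication by `a` on the model. -/
def Rep (s : ℕ → O) (a : O) (T : Vec →ₗ[ℂ] Vec) : Prop :=
  ∀ h, ∀ᶠ M in atTop, a * J s M h = J s M (T h)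

lemma rep_of_single {s : ℕ → O} {a : O} {T : Vec →ₗ[ℂ] Vec}
    (h : ∀ ω, ∀ᶠ M in atTop, a * J s M (Finsupp.single ω 1) = J s M (T (Finsupp.single ω 1))) :
    Rep s a T := by
  intro g
  induction g using Finsupp.induction_linear with
  | zero => simp
  | add f g hf hg =>
    filter_upwards [hf, hg] with M h1 h2
    rw [map_add, map_add, map_add, mul_add, h1, h2]
  | single ω c =>
    filter_upwards [h ω] with M h1
    rw [← Finsupp.smul_single_one, map_smul, map_smul, map_smul, mul_smul_comm, h1]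

lemma rep_Sup (s : ℕ → O) {i : ℕ} (hi : i < 2) : Rep s (s i) (Sup i) := by
  refine rep_of_single fun ⟨k, n⟩ => ?_
  filter_upwards [eventually_ge_atTop k.natAbs] with M hM
  rw [Sup, Finsupp.lmapDomain_apply, Finsupp.mapDomain_single, J_single, J_single]
  have e : ((M : ℤ) + (up i (k, n)).1).toNat = ((M : ℤ) + k).toNat + 1 := by
    simp only [up]; omega
  rw [e, wrd]
  simp only [up]
  congr 2 <;> omega

lemma rep_Sdn {s : ℕ → O} (hs : Iso s) {i : ℕ} (hi : i < 2) : Rep s (star (s i)) (Sdn i) := by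
  refine rep_of_single fun ⟨k, n⟩ => ?_
  filter_upwards [eventually_ge_atTop (k.natAbs + 1)] with M hM
  have e : ((M : ℤ) + k).toNat = ((M : ℤ) + (k - 1)).toNat + 1 := by omega
  rw [J_single, e, wrd, ← mul_assoc, hs i hi _ (Nat.mod_lt _ two_pos)]
  by_cases h : i = n % 2
  · have : Sdn i (Finsupp.single (k, n) 1) = Finsupp.single (par (k, n)) 1 := by
      ext ω
      rw [Sdn_apply, ← up_par (k, n), ← h, Finsupp.single_apply_left (up_injective i),
        par_up hi]
    rw [if_pos h, one_mul, this, J_single]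
    rfl
  · have : Sdn i (Finsupp.single (k, n) 1) = 0 := by
      ext ω
      rw [Sdn_apply, Finsupp.single_eq_of_ne, Finsupp.zero_apply]
      intro e
      simp only [up, Prod.mk.injEq] at e
      omega
    rw [if_neg h, zero_mul, this, map_zero]

lemma Rep.bound [Nontrivial O] {s : ℕ → O} (hs : Iso s) {a : O} {T : Vec →ₗ[ℂ] Vec}
    (h : Rep s a T) (g : Vec) : nsq (T g) ≤ ‖a‖ ^ 2 * nsq g := by
  obtain ⟨M, h1, h2, h3⟩ := ((h g).and ((gram hs g).and (gram hs (T g)))).exists
  rw [← norm_sq_of_gram (nsq_nonneg _) h2, ← norm_sq_of_gram (nsq_nonneg _) h3, ← h1, ← mul_pow]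
  gcongr
  exact norm_mul_le _ _

/-- Polynomials in the isometries and their adjoints. -/
def Poly (s : ℕ → O) : Subalgebra ℂ O :=
  Algebra.adjoin ℂ {s 0, s 1, star (s 0), star (s 1)}

lemma exists_rep {s : ℕ → O} (hs : Iso s) {a : O} (ha : a ∈ Poly s) :
    ∃ T, Rep s a T ∧ Loc T := by
  induction ha using Algebra.adjoin_induction with
  | mem x hx =>
    rcases hx with rfl | rfl | rfl | rfl
    · exact ⟨_, rep_Sup s two_pos, loc_Sup two_pos⟩
    · exact ⟨_, rep_Sup s one_lt_two, loc_Sup one_lt_two⟩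
    · exact ⟨_, rep_Sdn hs two_pos, loc_Sdn two_pos⟩
    · exact ⟨_, rep_Sdn hs one_lt_two, loc_Sdn one_lt_two⟩
  | algebraMap r =>
    refine ⟨_, fun h => Eventually.of_forall fun M => ?_, Loc.smul_id r⟩
    simp [Algebra.algebraMap_eq_smul_one]
  | add x y _ _ hx hy =>
    obtain ⟨S, h1, h2⟩ := hx
    obtain ⟨T, h3, h4⟩ := hy
    refine ⟨S + T, fun h => ?_, h2.add h4⟩
    filter_upwards [h1 h, h3 h] with M e1 e2
    rw [add_mul, e1, e2, LinearMap.add_apply, map_add]
  | mul x y _ _ hx hy =>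
    obtain ⟨S, h1, h2⟩ := hx
    obtain ⟨T, h3, h4⟩ := hy
    refine ⟨S ∘ₗ T, fun h => ?_, h2.comp h4⟩
    filter_upwards [h1 (T h), h3 h] with M e1 e2
    rw [mul_assoc, e2, e1, LinearMap.comp_apply]

/-- Infinitely many isometries with orthogonal ranges. -/
def tt {R : Type*} [Ring R] (s : ℕ → R) (j : ℕ) : R := s 1 ^ j * s 0

lemma tt_orth {R : Type*} [Ring R] [StarRing R] {s : ℕ → R} (hs : Iso s) (i j : ℕ) :
    star (tt s i) * tt s j = if i = j then 1 else 0 := by
  have h00 := hs 0 two_pos 0 two_pos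
  have h01 := hs 0 two_pos 1 one_lt_two
  have h10 := hs 1 one_lt_two 0 two_pos
  have h11 := hs 1 one_lt_two 1 one_lt_two
  simp only [if_true, zero_ne_one, one_ne_zero, if_false] at h00 h01 h10 h11
  have succ : ∀ j, tt s (j + 1) = s 1 * tt s j := fun j => by rw [tt, tt, pow_succ', mul_assoc]
  have zero : tt s 0 = s 0 := by simp [tt]
  induction i generalizing j with
  | zero =>
    rcases j with _ | j
    · rw [zero, h00, if_pos rfl]
    · rw [zero, succ, ← mul_assoc, h01, zero_mul, if_neg (by omega)]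
  | succ i ih =>
    rcases j with _ | j
    · rw [zero, succ, star_mul, mul_assoc, h10, mul_zero, if_neg (by omega)]
    · rw [succ, succ, star_mul, mul_assoc, ← mul_assoc (star (s 1)), h11, one_mul, ih]
      exact if_congr (by omega) rfl rfl

lemma tt_mem (s : ℕ → O) (j : ℕ) : tt s j ∈ Poly s :=
  Subalgebra.mul_mem _ (Subalgebra.pow_mem _ (Algebra.subset_adjoin (by simp)) _)
    (Algebra.subset_adjoin (by simp))

section emb

variable {G : Type*} [Fintype G] [DecidableEq G]

/-- Embedding of matrices in the algebra. -/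
noncomputable def emb (t : G → O) (m : Matrix G G ℂ) : O :=
  ∑ a, ∑ b, m a b • (t a * star (t b))

lemma emb_mul_t {t : G → O} (ht : ∀ a b, star (t a) * t b = if a = b then 1 else 0)
    (m : Matrix G G ℂ) (b : G) : emb t m * t b = ∑ a, m a b • t a := by
  simp only [emb, sum_mul, smul_mul_assoc, mul_assoc, ht]
  simp

lemma emb_mul {t : G → O} (ht : ∀ a b, star (t a) * t b = if a = b then 1 else 0)
    (m m' : Matrix G G ℂ) : emb t m * emb t m' = emb t (m * m') := by
  conv_lhs => rw [emb.eq_1 t m']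
  simp only [mul_sum, mul_smul_comm, ← mul_assoc, emb_mul_t ht, sum_mul, smul_sum,
    smul_mul_assoc, smul_smul]
  simp only [emb, mul_apply, sum_smul]
  rw [sum_comm]
  conv_rhs => rw [sum_comm]
  refine sum_congr rfl fun b _ => ?_
  rw [sum_comm]
  exact sum_congr rfl fun a _ => sum_congr rfl fun c _ => by rw [mul_comm]

omit [DecidableEq G] in
lemma star_emb (t : G → O) (m : Matrix G G ℂ) : star (emb t m) = emb t mᴴ := by
  simp only [emb, star_sum, star_smul, star_mul, star_star, conjTranspose_apply]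
  exact sum_comm

end emb

/-- The isometries used for matrices indexed by `Gd D`. -/
noncomputable def tG (s : ℕ → O) (D : ℕ) [NeZero D] (a : Gd D) : O :=
  tt s (Fintype.equivFin (Gd D) a)

lemma tG_orth {s : ℕ → O} (hs : Iso s) (D : ℕ) [NeZero D] (a b : Gd D) :
    star (tG s D a) * tG s D b = if a = b then 1 else 0 := by
  rw [tG, tG, tt_orth hs]
  exact if_congr (by rw [Fin.val_inj, EmbeddingLike.apply_eq_iff_eq]) rfl rfl

/-- The expander unitaries inside the algebra. -/
noncomputable def YY (s : ℕ → O) (D : ℕ) (i : Fin 5) : O := emb (tG s (D + 1)) (yMat (D + 1) i)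

lemma YY_pi {s : ℕ → O} (hs : Iso s) (D : ℕ) (i : Fin 5) :
    YY s D i * star (YY s D i) * YY s D i = YY s D i := by
  rw [YY, star_emb, emb_mul (tG_orth hs _), emb_mul (tG_orth hs _), yMat_unitary, Matrix.one_mul]

lemma gram_sub_le [Nontrivial O] {a b : O} {α β γ η : ℝ} (ha : star a * a = (α : ℂ) • (1 : O))
    (hb : star b * b = (β : ℂ) • (1 : O)) (hc : star (a - b) * (a - b) = (γ : ℂ) • (1 : O))
    (he : ‖star b * a - 1‖ ≤ η) : γ ≤ α + β - 2 + 2 * η := by
  have e : ((α + β - 2 - γ : ℝ) : ℂ) • (1 : O) = (star b * a - 1) + star (star b * a - 1) := by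
    rw [star_sub, sub_mul, mul_sub, mul_sub, ha, hb] at hc
    push_cast
    rw [sub_smul, sub_smul, add_smul, ← hc, star_sub, star_mul, star_star, star_one, two_smul]
    abel
  have h1 := norm_add_le (star b * a - 1) (star (star b * a - 1))
  rw [← e, norm_star, norm_smul, norm_one, mul_one, Complex.norm_real, Real.norm_eq_abs] at h1
  linarith [neg_abs_le (α + β - 2 - γ)]

theorem main_poly [Nontrivial O] {s : ℕ → O} (hs : Iso s) (x : Fin 5 → O) (hx : ∀ i, x i ∈ Poly s)
    (hn : ∀ i, ‖x i‖ ≤ 1 + 1 / 10 ^ 12) : ∃ D : ℕ, ∀ w ∈ Poly s, ‖w‖ ≤ 1 + 1 / 10 ^ 12 →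
      ¬ ∀ i, ‖star w * x i * w - YY s D i‖ ≤ 1 / 10 ^ 12 := by
  choose T hT hL using fun i => exists_rep hs (hx i)
  obtain ⟨N, hN⟩ := localize T hL fun i h => (hT i).bound hs h |>.trans (by
    have h1 : ‖x i‖ ^ 2 ≤ (1 + 1 / 10 ^ 12) ^ 2 := by gcongr; exact hn i
    exact mul_le_mul_of_nonneg_right (h1.trans (by norm_num)) (nsq_nonneg h))
  obtain ⟨D, hD⟩ : ∃ D, 2 * 2 ^ N ≤ (D + 1) ^ 2 :=
    ⟨2 ^ N, by nlinarith [Nat.zero_le ((2 ^ N) ^ 2)]⟩
  refine ⟨D, fun w hw hwn he => ?_⟩
  choose W hW _ using fun j : Gd (D + 1) => exists_rep hs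
    (Subalgebra.mul_mem _ hw (tt_mem s (Fintype.equivFin (Gd (D + 1)) j)))
  let δ : Vec := Finsupp.single 0 1
  have hδ : nsq δ = 1 := by simp [nsq, δ]
  have hWall : ∀ᶠ M in atTop, ∀ j, w * tG s (D + 1) j * J s M δ = J s M (W j δ) :=
    eventually_all.2 fun j => hW j δ
  have fnorm : ∀ {p : O}, star p * p = 1 → ∀ j, ‖tG s (D + 1) j * p‖ = 1 := fun {p} hp j => by
    have : star (tG s (D + 1) j * p) * (tG s (D + 1) j * p) = ((1 : ℝ) : ℂ) • (1 : O) := by
      rw [star_mul, mul_assoc, ← mul_assoc (star (tG _ _ _)), tG_orth hs, if_pos rfl, one_mul, hp]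
      simp
    have := norm_sq_of_gram zero_le_one this
    nlinarith [norm_nonneg (tG s (D + 1) j * p)]
  have Yiso : ∀ {p : O}, star p * p = 1 → ∀ i j,
      star (YY s D i * (tG s (D + 1) j * p)) * (YY s D i * (tG s (D + 1) j * p)) = 1 :=
    fun {p} hp i j => by
    have h1 : star (YY s D i) * YY s D i * tG s (D + 1) j = tG s (D + 1) j := by
      have hu : (yMat (D + 1) i)ᴴ * yMat (D + 1) i = 1 := mul_eq_one_comm.1 (yMat_unitary i)
      rw [YY, star_emb, emb_mul (tG_orth hs _), hu, emb_mul_t (tG_orth hs _)]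
      simp [one_apply]
    calc _ = star p * (star (tG s (D + 1) j) * (star (YY s D i) * YY s D i * tG s (D + 1) j)) * p := by
          simp only [star_mul, mul_assoc]
      _ = 1 := by rw [h1, tG_orth hs, if_pos rfl, mul_one, hp]
  have Ynorm : ∀ {p : O}, star p * p = 1 → ∀ i j, ‖YY s D i * (tG s (D + 1) j * p)‖ = 1 :=
    fun {p} hp i j => by
    have := norm_sq_of_gram (a := YY s D i * (tG s (D + 1) j * p)) zero_le_one
      (by rw [Yiso hp]; simp)
    nlinarith [norm_nonneg (YY s D i * (tG s (D + 1) j * p))]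
  refine hN (D + 1) hD (fun j => W j δ) (fun j => ?_) fun i j => ?_
  · obtain ⟨M, h1, h2, h3⟩ := (hWall.and ((gram hs δ).and (gram hs (W j δ)))).exists
    rw [hδ, Complex.ofReal_one, one_smul] at h2
    rw [← norm_sq_of_gram (nsq_nonneg _) h3, ← h1, mul_assoc]
    have f1 := fnorm h2 j
    have f2 := Ynorm h2 0 j
    generalize tG s (D + 1) j * J s M δ = f at *
    have a1 : ‖YY s D 0 * f‖ ≤ ‖star w * x 0 * (w * f)‖ + ‖(star w * x 0 * w - YY s D 0) * f‖ := by
      refine le_trans (le_of_eq ?_) (norm_sub_le _ _)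
      congr 1; noncomm_ring
    have a2 : ‖(star w * x 0 * w - YY s D 0) * f‖ ≤ 1 / 10 ^ 12 :=
      (norm_mul_le _ _).trans (by rw [f1, mul_one]; exact he 0)
    have a3 : ‖star w * x 0 * (w * f)‖ ≤ (1 + 1 / 10 ^ 12) * (1 + 1 / 10 ^ 12) * ‖w * f‖ := by
      refine (norm_mul_le _ _).trans (mul_le_mul_of_nonneg_right ((norm_mul_le _ _).trans ?_)
        (norm_nonneg _))
      rw [norm_star]
      gcongr
      exact hn 0
    have a4 : 9 / 10 ≤ ‖w * f‖ := by linarith [norm_nonneg (w * f)]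
    nlinarith
  · obtain ⟨M, h1, h2, h3, h4, h5, h6⟩ := (hWall.and ((gram hs δ).and ((hT i (W j δ)).and
      ((gram hs (T i (W j δ))).and ((gram hs (∑ l, yMat (D + 1) i l j • W l δ)).and
      (gram hs (T i (W j δ) - ∑ l, yMat (D + 1) i l j • W l δ))))))).exists
    rw [hδ, Complex.ofReal_one, one_smul] at h2
    have eb : J s M (∑ l, yMat (D + 1) i l j • W l δ) =
        w * (YY s D i * (tG s (D + 1) j * J s M δ)) := by
      rw [← mul_assoc (YY s D i), YY, emb_mul_t (tG_orth hs _), map_sum, sum_mul, mul_sum]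
      refine sum_congr rfl fun l _ => ?_
      rw [map_smul, ← h1, smul_mul_assoc, mul_smul_comm, mul_assoc]
    have ea : J s M (T i (W j δ)) = x i * (w * (tG s (D + 1) j * J s M δ)) := by
      rw [← h3, ← h1, mul_assoc]
    rw [map_sub] at h6
    have n4 := norm_sq_of_gram (nsq_nonneg _) h4
    have n5 := norm_sq_of_gram (nsq_nonneg _) h5
    have f1 := fnorm h2 j
    have f2 := Ynorm h2 i j
    have f3 := Yiso h2 i j
    refine (gram_sub_le h4 h5 h6 (η := 1 / 10 ^ 12) ?_).trans ?_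
    · rw [ea, eb]
      generalize tG s (D + 1) j * J s M δ = f at *
      have : star (w * (YY s D i * f)) * (x i * (w * f)) - 1 =
          star (YY s D i * f) * ((star w * x i * w - YY s D i) * f) := by
        rw [← f3, star_mul w]; noncomm_ring
      rw [this]
      refine (norm_mul_le _ _).trans ?_
      rw [norm_star, f2, one_mul]
      exact (norm_mul_le _ _).trans (by rw [f1, mul_one]; exact he i)
    · rw [← n4, ← n5, ea, eb]
      generalize tG s (D + 1) j * J s M δ = f at *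
      have a1 : ‖x i * (w * f)‖ ≤ (1 + 1 / 10 ^ 12) * (1 + 1 / 10 ^ 12) := by
        refine (norm_mul_le _ _).trans (mul_le_mul (hn i) ((norm_mul_le _ _).trans ?_)
          (norm_nonneg _) (by norm_num))
        rw [f1, mul_one]; exact hwn
      have a2 : ‖w * (YY s D i * f)‖ ≤ 1 + 1 / 10 ^ 12 :=
        (norm_mul_le _ _).trans (by rw [f2, mul_one]; exact hwn)
      have a3 := pow_le_pow_left₀ (norm_nonneg _) a1 2
      have a4 := pow_le_pow_left₀ (norm_nonneg _) a2 2
      norm_num at a3 a4 ⊢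
      linarith

theorem main_dense [Nontrivial O] {s : ℕ → O} (hs : Iso s) (hd : Dense (Poly s : Set O))
    (x : Fin 5 → O) (hn : ∀ i, ‖x i‖ ≤ 1 + 1 / 10 ^ 13) : ∃ D : ℕ, ∀ w : O,
      ‖w‖ ≤ 1 + 1 / 10 ^ 13 → ¬ ∀ i, ‖star w * x i * w - YY s D i‖ ≤ 1 / 10 ^ 13 := by
  have happ : ∀ a : O, ∃ b ∈ Poly s, ‖b - a‖ ≤ 1 / 10 ^ 13 := fun a => by
    obtain ⟨b, hb, h⟩ := hd.exists_dist_lt a (ε := 1 / 10 ^ 13) (by norm_num)
    exact ⟨b, hb, by rw [← dist_eq_norm, dist_comm]; exact h.le⟩
  have hle : ∀ a b : O, ‖a‖ ≤ 1 + 1 / 10 ^ 13 → ‖b - a‖ ≤ 1 / 10 ^ 13 →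
      ‖b‖ ≤ 1 + 2 / 10 ^ 13 := fun a b h1 h2 => by
    have := norm_le_norm_add_norm_sub' b a
    linarith
  choose x' hx' hx'' using fun i => happ (x i)
  obtain ⟨D, hD⟩ := main_poly hs x' hx' fun i => (hle _ _ (hn i) (hx'' i)).trans (by norm_num)
  refine ⟨D, fun w hw he => ?_⟩
  obtain ⟨w', hw', hw''⟩ := happ w
  have hw2 := hle _ _ hw hw''
  refine hD w' hw' (hw2.trans (by norm_num)) fun i => ?_
  have hx2 := hle _ _ (hn i) (hx'' i)
  have e : star w' * x' i * w' - YY s D i = (star w * x i * w - YY s D i) +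
      (star (w' - w) * x' i * w' + star w * (x' i - x i) * w' + star w * x i * (w' - w)) := by
    rw [star_sub]; noncomm_ring
  have b3 : ∀ a b c : O, ∀ p q r : ℝ, ‖a‖ ≤ p → ‖b‖ ≤ q → ‖c‖ ≤ r → ‖star a * b * c‖ ≤ p * q * r :=
    fun a b c p q r h1 h2 h3 => by
    refine (norm_mul₃_le ..).trans ?_
    rw [norm_star]
    have hp := (norm_nonneg a).trans h1
    have hq := (norm_nonneg b).trans h2
    gcongr
  have c1 := b3 _ _ _ _ _ _ hw'' hx2 hw2
  have c2 := b3 _ _ _ _ _ _ hw (hx'' i) hw2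
  have c3 := b3 _ _ _ _ _ _ hw (hn i) hw''
  rw [e]
  refine (norm_add_le _ _).trans ?_
  have c4 := norm_add₃_le (a := star (w' - w) * x' i * w') (b := star w * (x' i - x i) * w')
    (c := star w * x i * (w' - w))
  have c5 := he i
  norm_num at c1 c2 c3 c4 c5 ⊢
  linarith

end Pool.Agent.MP_e9d43c_an.H44
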