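import Pool.Agent.MP_e9d43c_an.H44.Mat

/-!
Five unitary matrices on functions on `(Z/D)^2` such that a matrix almost commuting with them is
almost scalar, uniformly in `D`.
-/

namespace Pool.Agent.MP_e9d43c_an.H44

open Matrix Finset
open scoped ComplexOrder

/-- The index set. -/
abbrev Gd (D : ℕ) := ZMod D × ZMod D

variable {D : ℕ} [NeZero D]

/-- Permutation matrix. -/
def pm (σ : Gd D ≃ Gd D) : Matrix (Gd D) (Gd D) ℂ := of fun a b => if a = σ b then 1 else 0

lemma pm_conj (σ : Gd D ≃ Gd D) (R : Matrix (Gd D) (Gd D) ℂ) (a b : Gd D) :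
    ((pm σ)ᴴ * R * pm σ) a b = R (σ a) (σ b) := by
  simp [pm, mul_apply, apply_ite star]

lemma pm_unitary (σ : Gd D ≃ Gd D) : pm σ * (pm σ)ᴴ = 1 := by
  rw [mul_eq_one_comm]
  ext a b
  have := pm_conj σ 1 a b
  rw [Matrix.mul_one] at this
  rw [this]
  simp [one_apply]

/-- The shear in the first coordinate. -/
def shear1 (D : ℕ) : Gd D ≃+ Gd D where
  toFun a := (a.1 + 2 * a.2, a.2)
  invFun a := (a.1 - 2 * a.2, a.2)
  left_inv a := by simp
  right_inv a := by simp
  map_add' a b := by ext <;> simp; ring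

/-- The shear in the second coordinate. -/
def shear2 (D : ℕ) : Gd D ≃+ Gd D where
  toFun a := (a.1, a.2 + 2 * a.1)
  invFun a := (a.1, a.2 - 2 * a.1)
  left_inv a := by simp
  right_inv a := by simp
  map_add' a b := by ext <;> simp; ring

/-- The Fourier matrix. -/
noncomputable def fourierMat (D : ℕ) [NeZero D] : Matrix (Gd D) (Gd D) ℂ :=
  of fun a b => ZMod.stdAddChar (a.1 * b.1) * ZMod.stdAddChar (a.2 * b.2) / D

/-- The five unitaries. -/
noncomputable def yMat (D : ℕ) [NeZero D] : Fin 5 → Matrix (Gd D) (Gd D) ℂ :=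
  ![diagonal fun a => ZMod.stdAddChar a.1, diagonal fun a => ZMod.stdAddChar a.2,
    pm (shear1 D).toEquiv, pm (shear2 D).toEquiv, fourierMat D]

lemma star_char (x : ZMod D) : star (ZMod.stdAddChar x) = ZMod.stdAddChar (-x) :=
  (AddChar.map_neg_eq_conj _ x).symm

lemma char_mul_star (x y : ZMod D) :
    ZMod.stdAddChar x * star (ZMod.stdAddChar y) = ZMod.stdAddChar (x - y) := by
  rw [star_char, ← AddChar.map_add_eq_mul, sub_eq_add_neg]

lemma fourierMat_unitary : fourierMat D * (fourierMat D)ᴴ = 1 := by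
  ext a b
  have hD : (D : ℂ) ≠ 0 := Nat.cast_ne_zero.2 (NeZero.ne D)
  have h : ∀ x y : ZMod D, ∑ c : ZMod D, ZMod.stdAddChar (x * c) * star (ZMod.stdAddChar (y * c)) =
      if x = y then (D : ℂ) else 0 := fun x y => by
    simp only [char_mul_star]
    have := AddChar.sum_mulShift (x - y) (ZMod.isPrimitive_stdAddChar D)
    simp only [ZMod.card, sub_eq_zero] at this
    rw [← Nat.cast_zero (R := ℂ), ← apply_ite (Nat.cast (R := ℂ)), ← this]
    exact sum_congr rfl fun c _ => by congr 1; ring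
  have e : (fourierMat D * (fourierMat D)ᴴ) a b =
      (∑ c : ZMod D, ZMod.stdAddChar (a.1 * c) * star (ZMod.stdAddChar (b.1 * c))) *
      (∑ c : ZMod D, ZMod.stdAddChar (a.2 * c) * star (ZMod.stdAddChar (b.2 * c))) / D ^ 2 := by
    rw [sum_mul_sum, ← Fintype.sum_prod_type', sum_div, mul_apply]
    refine sum_congr rfl fun c _ => ?_
    simp only [fourierMat, conjTranspose_apply, of_apply, star_div₀, star_mul', star_natCast]
    ring
  rw [e, h, h, one_apply]
  by_cases h1 : a.1 = b.1 <;> by_cases h2 : a.2 = b.2 <;> simp [h1, h2, Prod.ext_iff]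
  field_simp

lemma yMat_unitary (i : Fin 5) : yMat D i * (yMat D i)ᴴ = 1 := by
  have hd : ∀ f : Gd D → ZMod D, diagonal (fun a => ZMod.stdAddChar (f a)) *
      (diagonal fun a => ZMod.stdAddChar (f a))ᴴ = (1 : Matrix (Gd D) (Gd D) ℂ) := fun f => by
    rw [diagonal_conjTranspose, diagonal_mul_diagonal, ← diagonal_one]
    congr 1; ext a
    rw [Pi.star_apply, char_mul_star, sub_self, AddChar.map_zero_eq_one]
  fin_cases i
  · exact hd _
  · exact hd _
  · exact pm_unitary _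
  · exact pm_unitary _
  · exact fourierMat_unitary

open Classical in
/-- Indicator of a proposition. -/
noncomputable def ind (p : Prop) : ℝ := if p then 1 else 0

lemma ind_nonneg (p : Prop) : 0 ≤ ind p := by unfold ind; split_ifs <;> norm_num

lemma ind_le_one (p : Prop) : ind p ≤ 1 := by unfold ind; split_ifs <;> norm_num

/-- Weighted mass of a matrix along the diagonals. -/
noncomputable def mass (R : Matrix (Gd D) (Gd D) ℂ) (w : Gd D → ℝ) : ℝ :=
  ∑ b, ∑ a, w (a - b) * ‖R a b‖ ^ 2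

lemma mass_mono (R : Matrix (Gd D) (Gd D) ℂ) {w w' : Gd D → ℝ} (h : ∀ d, w d ≤ w' d) :
    mass R w ≤ mass R w' :=
  sum_le_sum fun _ _ => sum_le_sum fun _ _ => mul_le_mul_of_nonneg_right (h _) (sq_nonneg _)

lemma mass_add (R : Matrix (Gd D) (Gd D) ℂ) (w w' : Gd D → ℝ) :
    mass R (fun d => w d + w' d) = mass R w + mass R w' := by
  simp only [mass, add_mul, sum_add_distrib]

lemma mass_close (R R' : Matrix (Gd D) (Gd D) ℂ) {w : Gd D → ℝ} (h0 : ∀ d, 0 ≤ w d)
    (h1 : ∀ d, w d ≤ 1) : mass R w ≤ 3 / 2 * mass R' w + 3 * fsq (R - R') := by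
  simp only [mass, fsq, vsq, mul_sum, ← sum_add_distrib]
  refine sum_le_sum fun b _ => sum_le_sum fun a _ => ?_
  have h := norm_le_norm_add_norm_sub' (R a b) (R' a b)
  rw [Matrix.sub_apply]
  have := norm_nonneg (R a b)
  generalize ‖R a b - R' a b‖ = z at *
  generalize ‖R' a b‖ = y at *
  generalize ‖R a b‖ = x at *
  have e : x ^ 2 ≤ 3 / 2 * y ^ 2 + 3 * z ^ 2 := by nlinarith [sq_nonneg (y - 2 * z)]
  nlinarith [h0 (a - b), h1 (a - b), sq_nonneg z]

lemma mass_perm (R : Matrix (Gd D) (Gd D) ℂ) (σ : Gd D ≃+ Gd D) (w : Gd D → ℝ) :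
    mass ((pm σ.toEquiv)ᴴ * R * pm σ.toEquiv) w = mass R fun d => w (σ.symm d) := by
  simp only [mass, pm_conj]
  symm
  rw [← σ.toEquiv.sum_comp]
  refine sum_congr rfl fun b _ => ?_
  rw [← σ.toEquiv.sum_comp]
  refine sum_congr rfl fun a _ => ?_
  simp

lemma mass_shift (R : Matrix (Gd D) (Gd D) ℂ) (σ : Gd D ≃+ Gd D) {w : Gd D → ℝ} {δ : ℝ}
    (h0 : ∀ d, 0 ≤ w d) (h1 : ∀ d, w d ≤ 1)
    (h : fsq (R - (pm σ.toEquiv)ᴴ * R * pm σ.toEquiv) ≤ δ) :
    2 * mass R w ≤ 3 / 2 * mass R (fun d => w (σ.symm d) + w (σ d)) + 6 * δ := by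
  have a1 := mass_close R ((pm σ.toEquiv)ᴴ * R * pm σ.toEquiv) h0 h1
  have a2 := mass_close ((pm σ.toEquiv)ᴴ * R * pm σ.toEquiv) R (w := fun d => w (σ d))
    (fun d => h0 _) (fun d => h1 _)
  rw [mass_perm] at a1 a2
  rw [← neg_sub, fsq_neg] at a2
  simp only [AddEquiv.apply_symm_apply] at a2
  rw [mass_add]
  change mass R w ≤ _ at a2
  linarith

lemma char_far (x : ZMod D) (h : (D : ℤ) < 8 * |x.valMinAbs|) :
    1 / 4 ≤ ‖ZMod.stdAddChar x - 1‖ ^ 2 := by
  have hD : (0 : ℝ) < D := Nat.cast_pos.2 (NeZero.pos D)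
  have h1 : 2 * |x.valMinAbs| ≤ D := by
    have := x.valMinAbs_mem_Ioc
    rcases abs_cases x.valMinAbs with h | h <;> rw [h.1] <;> linarith [this.1, this.2]
  rw [← x.coe_valMinAbs, ZMod.stdAddChar_coe]
  generalize x.valMinAbs = v at *
  have h' : (D : ℝ) < 8 * |(v : ℝ)| := by exact_mod_cast h
  have h1' : 2 * |(v : ℝ)| ≤ D := by exact_mod_cast h1
  have e : (2 * Real.pi * Complex.I * v / D : ℂ) =
      Complex.I * ((2 * Real.pi * v / D : ℝ) : ℂ) := by push_cast; ring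
  rw [e, Complex.norm_exp_I_mul_ofReal_sub_one, Real.norm_eq_abs, abs_mul, abs_two]
  have hπ := Real.pi_pos
  have e2 : |2 * Real.pi * v / D / 2| = Real.pi * (|(v : ℝ)| / D) := by
    rw [show 2 * Real.pi * v / D / 2 = Real.pi * (v / D) by ring, abs_mul, abs_of_pos hπ, abs_div,
      abs_of_pos hD]
  have b1 : |(v : ℝ)| / D ≤ 1 / 2 := by rw [div_le_iff₀ hD]; linarith
  have b2 : 1 / 8 ≤ |(v : ℝ)| / D := by rw [le_div_iff₀ hD]; linarith
  have h2 := Real.mul_abs_le_abs_sin (x := 2 * Real.pi * v / D / 2) (by rw [e2]; nlinarith)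
  rw [e2, show 2 / Real.pi * (Real.pi * (|(v : ℝ)| / D)) = 2 * (|(v : ℝ)| / D) by field_simp] at h2
  nlinarith

lemma mass_far (R : Matrix (Gd D) (Gd D) ℂ) (f : Gd D →+ ZMod D) :
    mass R (fun d => ind ((D : ℤ) < 8 * |(f d).valMinAbs|)) ≤
      4 * fsq (R - (diagonal fun a => ZMod.stdAddChar (f a))ᴴ * R *
        diagonal fun a => ZMod.stdAddChar (f a)) := by
  simp only [mass, fsq, vsq, mul_sum]
  refine sum_le_sum fun b _ => sum_le_sum fun a _ => ?_
  unfold ind
  split_ifs with h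
  · have h1 := char_far _ h
    have e : (R - (diagonal fun a => ZMod.stdAddChar (f a))ᴴ * R *
        diagonal fun a => ZMod.stdAddChar (f a)) a b =
        (ZMod.stdAddChar (f (a - b)) - 1) * (ZMod.stdAddChar (f (b - a)) * R a b) := by
      rw [Matrix.sub_apply, diagonal_conjTranspose, mul_diagonal, diagonal_mul, Pi.star_apply,
        sub_mul, ← mul_assoc, ← AddChar.map_add_eq_mul, ← map_add, map_sub f b, ← char_mul_star]
      simp; ring
    rw [e, norm_mul, norm_mul, AddChar.norm_apply, one_mul, one_mul, mul_pow]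
    nlinarith [sq_nonneg ‖R a b‖]
  · rw [zero_mul]; positivity

lemma valMinAbs_shear {x y : ZMod D} (hx : 8 * |x.valMinAbs| ≤ D) (hy : 8 * |y.valMinAbs| ≤ D) :
    (x + 2 * y).valMinAbs = x.valMinAbs + 2 * y.valMinAbs ∧
      (x - 2 * y).valMinAbs = x.valMinAbs - 2 * y.valMinAbs := by
  have hD : (0 : ℤ) < D := Nat.cast_pos.2 (NeZero.pos D)
  have a1 := le_abs_self x.valMinAbs
  have a2 := neg_abs_le x.valMinAbs
  have a3 := le_abs_self y.valMinAbs
  have a4 := neg_abs_le y.valMinAbs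
  constructor <;> rw [ZMod.valMinAbs_spec] <;>
    exact ⟨by simp, by linarith, by linarith⟩

/-- The basic cone of the ping-pong argument. -/
def cone (x y : ZMod D) : Prop :=
  8 * |x.valMinAbs| ≤ D ∧ 8 * |y.valMinAbs| ≤ D ∧ y ≠ 0 ∧ |x.valMinAbs| ≤ |y.valMinAbs|

lemma ping (x y : ZMod D) :
    ind (cone (x - 2 * y) y) + ind (cone (x + 2 * y) y) ≤
      ind (cone y x) + ind ((D : ℤ) < 8 * |x.valMinAbs|) := by
  have key : ∀ z : ZMod D, cone z y → (x = z + 2 * y ∨ x = z - 2 * y) →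
      (cone y x ∨ (D : ℤ) < 8 * |x.valMinAbs|) := by
    rintro z ⟨h1, h2, h3, h4⟩ hx
    have h5 : y.valMinAbs ≠ 0 := fun h => h3 ((ZMod.valMinAbs_eq_zero y).1 h)
    have h6 : |y.valMinAbs| ≤ |x.valMinAbs| := by
      obtain ⟨e1, e2⟩ := valMinAbs_shear h1 h2
      rcases hx with rfl | rfl
      · rw [e1]
        rcases abs_cases z.valMinAbs with a | a <;> rcases abs_cases y.valMinAbs with b | b <;>
          rcases abs_cases (z.valMinAbs + 2 * y.valMinAbs) with c | c <;> omega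
      · rw [e2]
        rcases abs_cases z.valMinAbs with a | a <;> rcases abs_cases y.valMinAbs with b | b <;>
          rcases abs_cases (z.valMinAbs - 2 * y.valMinAbs) with c | c <;> omega
    by_cases h7 : (D : ℤ) < 8 * |x.valMinAbs|
    · exact Or.inr h7
    · refine Or.inl ⟨h2, not_lt.1 h7, fun h => ?_, h6⟩
      rw [h, ZMod.valMinAbs_zero, abs_zero] at h6
      exact h5 (abs_nonpos_iff.1 h6)
  have excl : ¬ (cone (x - 2 * y) y ∧ cone (x + 2 * y) y) := by
    rintro ⟨⟨h1, h2, h3, h4⟩, ⟨g1, -, -, g4⟩⟩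
    have h5 : y.valMinAbs ≠ 0 := fun h => h3 ((ZMod.valMinAbs_eq_zero y).1 h)
    have e1 := (valMinAbs_shear h1 h2).1
    have e2 := (valMinAbs_shear g1 h2).2
    rw [sub_add_cancel] at e1
    rw [add_sub_cancel_right] at e2
    rcases abs_cases (x - 2 * y).valMinAbs with a | a <;>
      rcases abs_cases y.valMinAbs with b | b <;>
      rcases abs_cases (x + 2 * y).valMinAbs with c | c <;> omega
  have k1 := fun h => key (x - 2 * y) h (Or.inl (sub_add_cancel _ _).symm)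
  have k2 := fun h => key (x + 2 * y) h (Or.inr (add_sub_cancel_right _ _).symm)
  unfold ind
  split_ifs <;> first | (norm_num; done) | tauto

lemma almost_scalar {R : Matrix (Gd D) (Gd D) ℂ} {δ : ℝ}
    (h : ∀ i, fsq (R - (yMat D i)ᴴ * R * yMat D i) ≤ δ) :
    ∃ c : ℂ, fsq (R - c • (1 : Matrix (Gd D) (Gd D) ℂ)) ≤ 484 * δ := by
  classical
  have f1 := (mass_far R (AddMonoidHom.fst _ _)).trans (mul_le_mul_of_nonneg_left (h 0) zero_le_four)
  have f2 := (mass_far R (AddMonoidHom.snd _ _)).trans (mul_le_mul_of_nonneg_left (h 1) zero_le_four)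
  simp only [AddMonoidHom.coe_fst, AddMonoidHom.coe_snd] at f1 f2
  have s1 := mass_shift R (shear1 D) (w := fun d => ind (cone d.1 d.2))
    (fun d => ind_nonneg _) (fun d => ind_le_one _) (h 2)
  have s2 := mass_shift R (shear2 D) (w := fun d => ind (cone d.2 d.1))
    (fun d => ind_nonneg _) (fun d => ind_le_one _) (h 3)
  have p1 := (mass_mono R fun d => ping d.1 d.2).trans_eq (mass_add R _ _)
  have p2 := (mass_mono R fun d => ping d.2 d.1).trans_eq (mass_add R _ _)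
  have off : mass R (fun d => if d = 0 then 0 else 1) ≤ 80 * δ := by
    have : mass R (fun d => if d = 0 then 0 else 1) ≤
        mass R fun d => (ind (cone d.1 d.2) + ind (cone d.2 d.1)) +
          (ind ((D : ℤ) < 8 * |d.1.valMinAbs|) + ind ((D : ℤ) < 8 * |d.2.valMinAbs|)) := by
      refine mass_mono R fun d => ?_
      have : d = 0 ∨ cone d.1 d.2 ∨ cone d.2 d.1 ∨ (D : ℤ) < 8 * |d.1.valMinAbs| ∨
          (D : ℤ) < 8 * |d.2.valMinAbs| := by
        by_contra hc
        push Not at hc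
        obtain ⟨c0, c1, c2, c3, c4⟩ := hc
        rcases le_total |d.1.valMinAbs| |d.2.valMinAbs| with hle | hle
        · refine c1 ⟨c3, c4, fun h0 => c0 (Prod.ext ?_ h0), hle⟩
          rw [h0, ZMod.valMinAbs_zero, abs_zero] at hle
          exact (ZMod.valMinAbs_eq_zero _).1 (abs_nonpos_iff.1 hle)
        · refine c2 ⟨c4, c3, fun h0 => c0 (Prod.ext h0 ?_), hle⟩
          rw [h0, ZMod.valMinAbs_zero, abs_zero] at hle
          exact (ZMod.valMinAbs_eq_zero _).1 (abs_nonpos_iff.1 hle)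
      unfold ind
      split_ifs <;> first | (norm_num; done) | tauto
    rw [mass_add, mass_add, mass_add] at this
    change 2 * mass R (fun d => ind (cone d.1 d.2)) ≤ 3 / 2 * mass R (fun d =>
      ind (cone (d.1 - 2 * d.2) d.2) + ind (cone (d.1 + 2 * d.2) d.2)) + 6 * δ at s1
    change 2 * mass R (fun d => ind (cone d.2 d.1)) ≤ 3 / 2 * mass R (fun d =>
      ind (cone (d.2 - 2 * d.1) d.1) + ind (cone (d.2 + 2 * d.1) d.1)) + 6 * δ at s2
    have hδ : 0 ≤ δ := (fsq_nonneg _).trans (h 0)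
    linarith
  set Dg : Matrix (Gd D) (Gd D) ℂ := diagonal fun a => R a a with hDg
  have o1 : fsq (R - Dg) ≤ 80 * δ := by
    refine le_trans (le_of_eq ?_) off
    refine sum_congr rfl fun b _ => sum_congr rfl fun a _ => ?_
    by_cases hab : a = b
    · simp [hab, hDg]
    · simp [hab, hDg, sub_eq_zero]
  let c : ℂ := (∑ a, R a a) / D ^ 2
  have hc : ∀ a, ((fourierMat D)ᴴ * Dg * fourierMat D) a a = c := fun a => by
    simp only [c, sum_div]
    rw [mul_apply]
    refine sum_congr rfl fun b _ => ?_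
    rw [hDg, mul_diagonal, conjTranspose_apply]
    have e1 := char_mul_star (b.1 * a.1) (b.1 * a.1)
    have e2 := char_mul_star (b.2 * a.2) (b.2 * a.2)
    rw [sub_self, AddChar.map_zero_eq_one] at e1 e2
    simp only [fourierMat, of_apply, star_div₀, star_mul', star_natCast]
    linear_combination (R b b / D ^ 2 * (ZMod.stdAddChar (b.2 * a.2) *
      star (ZMod.stdAddChar (b.2 * a.2)))) * e1 + (R b b / D ^ 2) * e2
  have o2 : fsq (Dg - c • (1 : Matrix (Gd D) (Gd D) ℂ)) ≤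
      fsq (R - (fourierMat D)ᴴ * Dg * fourierMat D) := by
    rw [hDg, smul_one_eq_diagonal, diagonal_sub, fsq_diagonal]
    refine sum_le_sum fun a _ => ?_
    rw [← hc a]
    exact single_le_sum (f := fun i => ‖(R - (fourierMat D)ᴴ * Dg * fourierMat D) i a‖ ^ 2)
      (fun _ _ => sq_nonneg _) (mem_univ a)
  have o3 := fsq_add_le (R - (fourierMat D)ᴴ * R * fourierMat D)
    ((fourierMat D)ᴴ * (R - Dg) * fourierMat D)
  rw [fsq_conj _ fourierMat_unitary, Matrix.mul_sub, Matrix.sub_mul, sub_add_sub_cancel] at o3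
  have o4 := fsq_add_le (R - Dg) (Dg - c • (1 : Matrix (Gd D) (Gd D) ℂ))
  rw [sub_add_sub_cancel] at o4
  have h4 : fsq (R - (fourierMat D)ᴴ * R * fourierMat D) ≤ δ := h 4
  exact ⟨c, by linarith⟩

/-- No almost intertwiner of small rank. -/
theorem no_small_rank {L : Type*} [Fintype L] {Ξ : Matrix L (Gd D) ℂ}
    {Z : Fin 5 → Matrix L (Gd D) ℂ} (hr : 2 * Ξ.rank ≤ D ^ 2)
    (hb : ∀ i, ∀ v : Gd D → ℂ, vsq (Z i *ᵥ v) ≤ (1 + 1 / 30000) * vsq (Ξ *ᵥ v))
    (he : ∀ i, fsq (Z i - Ξ * yMat D i) ≤ (1 / 30000) ^ 2 * fsq Ξ) : fsq Ξ ≤ 0 := by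
  obtain ⟨R, h1, h2, h3⟩ := exists_sqrt Ξ
  obtain ⟨c, hc⟩ := almost_scalar fun i => almost_commute (by norm_num) (by norm_num)
    (yMat_unitary i) h1 h2 (hb i) (he i)
  have h4 := h3 c
  have h5 := fsq_add_le (R - c • (1 : Matrix (Gd D) (Gd D) ℂ)) (c • (1 : Matrix (Gd D) (Gd D) ℂ))
  have h8 : fsq (c • (1 : Matrix (Gd D) (Gd D) ℂ)) = Fintype.card (Gd D) * ‖c‖ ^ 2 := by
    rw [smul_one_eq_diagonal, fsq_diagonal, sum_const, card_univ, nsmul_eq_mul]
  rw [sub_add_cancel, fsq_congr h2, h8] at h5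
  have h6 : (Fintype.card (Gd D) : ℝ) = D ^ 2 := by simp [pow_two]
  have h7 : (2 * Ξ.rank : ℝ) ≤ D ^ 2 := by exact_mod_cast hr
  rw [h6] at h4 h5
  nlinarith [sq_nonneg ‖c‖, mul_nonneg (sub_nonneg.2 h7) (sq_nonneg ‖c‖)]

end Pool.Agent.MP_e9d43c_an.H44
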