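import Mathlib

/-!
Hilbert-Schmidt estimates for matrices: a Powers-Stormer type inequality and a rank estimate.
-/

namespace Pool.Agent.MP_e9d43c_an.H44

open Matrix Finset
open scoped ComplexOrder

/-- Squared Euclidean norm of a vector. -/
noncomputable def vsq {ι : Type*} [Fintype ι] (v : ι → ℂ) : ℝ := ∑ i, ‖v i‖ ^ 2

/-- Squared Hilbert-Schmidt norm of a matrix. -/
noncomputable def fsq {m n : Type*} [Fintype m] [Fintype n] (A : Matrix m n ℂ) : ℝ :=
  ∑ j, vsq fun i => A i j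

variable {L n : Type*} [Fintype L] [Fintype n]

lemma vsq_nonneg (v : L → ℂ) : 0 ≤ vsq v := sum_nonneg fun _ _ => sq_nonneg _

lemma fsq_nonneg (A : Matrix L n ℂ) : 0 ≤ fsq A := sum_nonneg fun _ _ => vsq_nonneg _

lemma vsq_eq_norm (v : L → ℂ) :
    vsq v = ‖(WithLp.toLp 2 v : EuclideanSpace ℂ L)‖ ^ 2 := by
  rw [EuclideanSpace.norm_sq_eq]; rfl

lemma norm_add_sq_le_two {E : Type*} [SeminormedAddCommGroup E] (a b : E) :
    ‖a + b‖ ^ 2 ≤ 2 * ‖a‖ ^ 2 + 2 * ‖b‖ ^ 2 := by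
  have h := norm_add_le a b
  have h0 := norm_nonneg (a + b)
  nlinarith [sq_nonneg (‖a‖ - ‖b‖)]

lemma fsq_add_le (A B : Matrix L n ℂ) : fsq (A + B) ≤ 2 * fsq A + 2 * fsq B := by
  simp only [fsq, vsq, mul_sum, ← sum_add_distrib]
  exact sum_le_sum fun j _ => sum_le_sum fun i _ => norm_add_sq_le_two _ _

lemma fsq_neg (A : Matrix L n ℂ) : fsq (-A) = fsq A := by simp [fsq, vsq]

omit [Fintype n] in
lemma conjTranspose_mul_self_diag (A : Matrix L n ℂ) (j : n) :
    (Aᴴ * A) j j = ((vsq fun i => A i j : ℝ) : ℂ) := by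
  simp only [mul_apply, conjTranspose_apply, vsq]
  push_cast
  refine sum_congr rfl fun i _ => ?_
  rw [Complex.star_def, Complex.conj_mul']

lemma fsq_eq_trace (A : Matrix L n ℂ) : ((fsq A : ℝ) : ℂ) = trace (Aᴴ * A) := by
  simp only [trace, Matrix.diag, conjTranspose_mul_self_diag, fsq]
  push_cast; rfl

lemma fsq_congr {L' : Type*} [Fintype L'] {A : Matrix L n ℂ} {B : Matrix L' n ℂ}
    (h : Aᴴ * A = Bᴴ * B) : fsq A = fsq B := by
  have := fsq_eq_trace A
  rw [h, ← fsq_eq_trace] at this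
  exact_mod_cast this

lemma fsq_mul_unitary [DecidableEq n] (A : Matrix L n ℂ) {U : Matrix n n ℂ} (hU : U * Uᴴ = 1) :
    fsq (A * U) = fsq A := by
  have := fsq_eq_trace (A * U)
  rw [conjTranspose_mul, Matrix.mul_assoc, trace_mul_comm, Matrix.mul_assoc, Matrix.mul_assoc, hU,
    Matrix.mul_one, ← fsq_eq_trace] at this
  exact_mod_cast this

lemma fsq_unitary_mul [DecidableEq L] (A : Matrix L n ℂ) {U : Matrix L L ℂ} (hU : Uᴴ * U = 1) :
    fsq (U * A) = fsq A := by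
  apply fsq_congr
  rw [conjTranspose_mul, Matrix.mul_assoc, ← Matrix.mul_assoc Uᴴ, hU, Matrix.one_mul]

lemma fsq_conj [DecidableEq n] (A : Matrix n n ℂ) {U : Matrix n n ℂ} (hU : U * Uᴴ = 1) :
    fsq (Uᴴ * A * U) = fsq A := by
  rw [fsq_mul_unitary _ hU, fsq_unitary_mul _ (by rwa [conjTranspose_conjTranspose])]

lemma fsq_diagonal [DecidableEq n] (d : n → ℂ) : fsq (diagonal d) = ∑ j, ‖d j‖ ^ 2 := by
  refine sum_congr rfl fun j _ => ?_
  rw [vsq, sum_eq_single j]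
  · simp
  · intro i _ h; simp [diagonal_apply_ne _ h]
  · simp

lemma exists_diag [DecidableEq n] {A : Matrix n n ℂ} (hA : A.IsHermitian) :
    ∃ (U : Matrix n n ℂ) (l : n → ℝ), Uᴴ * U = 1 ∧ U * Uᴴ = 1 ∧
      Uᴴ * A * U = diagonal (fun i => (l i : ℂ)) ∧ A.rank = Fintype.card {i // l i ≠ 0} := by
  refine ⟨hA.eigenvectorUnitary, hA.eigenvalues, hA.eigenvectorUnitary.2.1,
    hA.eigenvectorUnitary.2.2, ?_, hA.rank_eq_card_non_zero_eigs⟩
  have := hA.conjStarAlgAut_star_eigenvectorUnitary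
  rw [Unitary.conjStarAlgAut_star_apply] at this
  exact this

lemma abs_vsq_sub_le {t : ℝ} (ht : 0 < t) (p q : L → ℂ) :
    |vsq p - vsq q| ≤ vsq (p - q) / t + t * (vsq p + vsq q) / 2 := by
  rw [vsq_eq_norm, vsq_eq_norm, vsq_eq_norm, WithLp.toLp_sub]
  generalize (WithLp.toLp 2 p : EuclideanSpace ℂ L) = a
  generalize (WithLp.toLp 2 q : EuclideanSpace ℂ L) = b
  have h := abs_norm_sub_norm_le a b
  have ha := norm_nonneg a
  have hb := norm_nonneg b
  generalize ‖a - b‖ = d at *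
  generalize ‖a‖ = P at *
  generalize ‖b‖ = Q at *
  have hd : 0 ≤ d := (abs_nonneg _).trans h
  have e : |P ^ 2 - Q ^ 2| = |P - Q| * (P + Q) := by
    rw [show P ^ 2 - Q ^ 2 = (P - Q) * (P + Q) by ring, abs_mul, abs_of_nonneg (add_nonneg ha hb)]
  rw [e]
  have h1 : |P - Q| * (P + Q) ≤ d * (P + Q) := by gcongr
  refine h1.trans ?_
  rw [div_add' _ _ _ ht.ne', le_div_iff₀ ht]
  nlinarith [sq_nonneg (d - t * P), sq_nonneg (d - t * Q)]

/-- Powers-Stormer inequality in the form used here. -/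
lemma powers_stormer [DecidableEq n] {a b : Matrix n n ℂ} (ha : a.PosSemidef) (hb : b.PosSemidef) :
    ∃ U : Matrix n n ℂ, Uᴴ * U = 1 ∧ U * Uᴴ = 1 ∧
      fsq (a - b) ≤ ∑ j, |(vsq fun i => (a * U) i j) - vsq fun i => (b * U) i j| := by
  obtain ⟨U, l, h1, h2, h3, -⟩ := exists_diag (ha.1.sub hb.1)
  refine ⟨U, h1, h2, ?_⟩
  rw [← fsq_conj _ h2, h3, fsq_diagonal]
  refine sum_le_sum fun j _ => ?_
  set a' := Uᴴ * a * U with ha'
  set b' := Uᴴ * b * U with hb'
  have hd : a' - b' = diagonal (fun i => (l i : ℂ)) := by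
    rw [← h3, ha', hb', Matrix.mul_sub, Matrix.sub_mul]
  have pa : a'.PosSemidef := ha.conjTranspose_mul_mul_same U
  have pb : b'.PosSemidef := hb.conjTranspose_mul_mul_same U
  have sq : ∀ {c : Matrix n n ℂ}, c.IsHermitian →
      (c * U)ᴴ * (c * U) = (Uᴴ * c * U) * (Uᴴ * c * U) := fun {c} hc => by
    rw [conjTranspose_mul, hc.eq]
    simp only [Matrix.mul_assoc]
    rw [← Matrix.mul_assoc U Uᴴ, h2, Matrix.one_mul]
  have e1 := conjTranspose_mul_self_diag (a * U) j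
  have e2 := conjTranspose_mul_self_diag (b * U) j
  rw [sq ha.1, ← ha'] at e1
  rw [sq hb.1, ← hb'] at e2
  have e3 : (a' * a' - b' * b') + (a' * a' - b' * b') =
      (a' - b') * (a' + b') + (a' + b') * (a' - b') := by noncomm_ring
  have e4 := congrFun (congrFun e3 j) j
  rw [hd] at e4
  simp only [Matrix.add_apply, Matrix.sub_apply, diagonal_mul, mul_diagonal, e1, e2] at e4
  have e5 := congrFun (congrFun hd j) j
  simp only [Matrix.sub_apply, diagonal_apply_eq] at e5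
  obtain ⟨x, hx, ex⟩ : ∃ x : ℝ, 0 ≤ x ∧ a' j j = x := by
    have := pa.diag_nonneg (i := j)
    exact ⟨(a' j j).re, (Complex.nonneg_iff.1 this).1,
      Complex.ext rfl (by simpa using (Complex.nonneg_iff.1 this).2.symm)⟩
  obtain ⟨y, hy, ey⟩ : ∃ x : ℝ, 0 ≤ x ∧ b' j j = x := by
    have := pb.diag_nonneg (i := j)
    exact ⟨(b' j j).re, (Complex.nonneg_iff.1 this).1,
      Complex.ext rfl (by simpa using (Complex.nonneg_iff.1 this).2.symm)⟩
  rw [ex, ey] at e4 e5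
  have f4 : (vsq fun i => (a * U) i j) - (vsq fun i => (b * U) i j) = l j * (x + y) := by
    have : (((vsq fun i => (a * U) i j) - (vsq fun i => (b * U) i j) : ℝ) : ℂ) =
        ((l j * (x + y) : ℝ) : ℂ) := by
      push_cast; linear_combination e4 / 2
    exact_mod_cast this
  have f5 : x - y = l j := by exact_mod_cast e5
  rw [f4, Complex.norm_real, Real.norm_eq_abs, abs_mul, abs_of_nonneg (add_nonneg hx hy), pow_two]
  gcongr
  rw [← f5, abs_le]
  constructor <;> linarith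

/-- An almost intertwiner gives an almost invariant positive matrix. -/
lemma almost_commute [DecidableEq n] {t : ℝ} (ht : 0 < t) (ht1 : t ≤ 1) {Ξ Z : Matrix L n ℂ}
    {y R : Matrix n n ℂ} (hy : y * yᴴ = 1) (hR : R.PosSemidef) (hRR : Rᴴ * R = Ξᴴ * Ξ)
    (hb : ∀ v : n → ℂ, vsq (Z *ᵥ v) ≤ (1 + t) * vsq (Ξ *ᵥ v))
    (he : fsq (Z - Ξ * y) ≤ t ^ 2 * fsq Ξ) : fsq (R - yᴴ * R * y) ≤ 7 * t * fsq Ξ := by
  obtain ⟨U, -, h2, h3⟩ := powers_stormer hR (hR.conjTranspose_mul_mul_same y)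
  refine h3.trans ?_
  have col : ∀ {A : Matrix n n ℂ} {B : Matrix L n ℂ},
      Aᴴ * A = Bᴴ * B → ∀ j, (vsq fun i => (A * U) i j) = vsq fun i => (B * U) i j := by
    intro A B h j
    have e1 := conjTranspose_mul_self_diag (A * U) j
    have e2 := conjTranspose_mul_self_diag (B * U) j
    rw [conjTranspose_mul, Matrix.mul_assoc, ← Matrix.mul_assoc Aᴴ, h] at e1
    rw [conjTranspose_mul, Matrix.mul_assoc, ← Matrix.mul_assoc Bᴴ, e1] at e2
    exact_mod_cast e2
  have hb' : (yᴴ * R * y)ᴴ * (yᴴ * R * y) = (Ξ * y)ᴴ * (Ξ * y) := by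
    simp only [conjTranspose_mul, conjTranspose_conjTranspose, Matrix.mul_assoc]
    rw [← Matrix.mul_assoc y yᴴ, hy, Matrix.one_mul, ← Matrix.mul_assoc Rᴴ, hRR, Matrix.mul_assoc]
  refine le_trans (le_of_eq (sum_congr rfl fun j _ => by rw [col hRR j, col hb' j])) ?_
  set α : n → ℝ := fun j => vsq fun i => (Ξ * U) i j with hα
  set β : n → ℝ := fun j => vsq fun i => (Ξ * y * U) i j with hβ
  set γ : n → ℝ := fun j => vsq fun i => (Z * U) i j with hγ
  set d : n → ℝ := fun j => vsq fun i => ((Z - Ξ * y) * U) i j with hd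
  have sα : ∑ j, α j = fsq Ξ := fsq_mul_unitary Ξ h2
  have sβ : ∑ j, β j = fsq Ξ := (fsq_mul_unitary (Ξ * y) h2).trans (fsq_mul_unitary Ξ hy)
  have sd : ∑ j, d j ≤ t ^ 2 * fsq Ξ := (fsq_mul_unitary _ h2).trans_le he
  have hγα : ∀ j, γ j ≤ (1 + t) * α j := fun j => hb fun i => U i j
  have hγβ : ∀ j, |γ j - β j| ≤ d j / t + t * (γ j + β j) / 2 := fun j => by
    have := abs_vsq_sub_le ht (fun i => (Z * U) i j) (fun i => (Ξ * y * U) i j)
    simp only [hγ, hβ, hd, Matrix.sub_mul]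
    exact this
  have α0 : ∀ j, 0 ≤ α j := fun j => vsq_nonneg _
  have key : ∀ j, |α j - β j| ≤
      (1 + 2 * t) * α j - β j + 2 * (d j / t + t * ((1 + t) * α j + β j) / 2) := fun j => by
    have h1 := abs_le.1 (hγβ j)
    have h2 := hγα j
    have h3 : t * (γ j + β j) / 2 ≤ t * ((1 + t) * α j + β j) / 2 := by gcongr
    have h4 := mul_nonneg ht.le (α0 j)
    rw [abs_le]
    constructor <;> nlinarith
  refine (sum_le_sum fun j _ => key j).trans ?_
  have : ∑ j, ((1 + 2 * t) * α j - β j + 2 * (d j / t + t * ((1 + t) * α j + β j) / 2)) =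
      (1 + 2 * t + t * (1 + t)) * ∑ j, α j + (t - 1) * ∑ j, β j + 2 * ((∑ j, d j) / t) := by
    rw [mul_sum, mul_sum, sum_div, mul_sum, ← sum_add_distrib, ← sum_add_distrib]
    exact sum_congr rfl fun j _ => by ring
  rw [this, sα, sβ]
  have h5 : (∑ j, d j) / t ≤ t * fsq Ξ := by
    rw [div_le_iff₀ ht]; nlinarith
  have h6 := fsq_nonneg Ξ
  nlinarith [mul_nonneg ht.le h6, mul_nonneg (mul_nonneg ht.le h6) (sub_nonneg.2 ht1)]

/-- The positive square root of `Ξᴴ Ξ`, and its distance to the scalars when the rank is small. -/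
lemma exists_sqrt [DecidableEq n] (Ξ : Matrix L n ℂ) :
    ∃ R : Matrix n n ℂ, R.PosSemidef ∧ Rᴴ * R = Ξᴴ * Ξ ∧ ∀ c : ℂ,
      ((Fintype.card n : ℝ) - Ξ.rank) * ‖c‖ ^ 2 ≤ fsq (R - c • (1 : Matrix n n ℂ)) := by
  have hK := posSemidef_conjTranspose_mul_self Ξ
  obtain ⟨U, l, h1, h2, h3, h4⟩ := exists_diag hK.1
  have hl : ∀ i, 0 ≤ l i := fun i => by
    have := (hK.conjTranspose_mul_mul_same U).diag_nonneg (i := i)
    rw [h3, diagonal_apply_eq] at this
    exact_mod_cast this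
  let D : Matrix n n ℂ := diagonal fun i => ((Real.sqrt (l i) : ℝ) : ℂ)
  have hD : D.PosSemidef := PosSemidef.diagonal fun i => by
    simp only [Pi.zero_apply]; exact_mod_cast Real.sqrt_nonneg _
  have hR := hD.mul_mul_conjTranspose_same U
  refine ⟨U * D * Uᴴ, hR, ?_, fun c => ?_⟩
  · rw [hR.1.eq]
    have : D * D = diagonal fun i => (l i : ℂ) := by
      rw [diagonal_mul_diagonal]
      congr 1; ext i
      exact_mod_cast Real.mul_self_sqrt (hl i)
    calc U * D * Uᴴ * (U * D * Uᴴ) = U * (D * (Uᴴ * U) * D) * Uᴴ := by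
          simp only [Matrix.mul_assoc]
      _ = U * (Uᴴ * (Ξᴴ * Ξ) * U) * Uᴴ := by rw [h1, Matrix.mul_one, this, h3]
      _ = (U * Uᴴ) * (Ξᴴ * Ξ) * (U * Uᴴ) := by simp only [Matrix.mul_assoc]
      _ = Ξᴴ * Ξ := by rw [h2, Matrix.one_mul, Matrix.mul_one]
  · rw [← fsq_conj _ h2]
    have : Uᴴ * (U * D * Uᴴ - c • (1 : Matrix n n ℂ)) * U =
        diagonal fun i => ((Real.sqrt (l i) : ℝ) : ℂ) - c := by
      rw [Matrix.mul_sub, Matrix.sub_mul, Matrix.mul_smul, Matrix.smul_mul, Matrix.mul_one, h1]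
      simp only [← Matrix.mul_assoc]
      rw [h1, Matrix.one_mul, Matrix.mul_assoc, h1, Matrix.mul_one, smul_one_eq_diagonal,
        diagonal_sub]
    rw [this, fsq_diagonal, ← rank_conjTranspose_mul_self, h4]
    classical
    have hc : (Fintype.card n : ℝ) - Fintype.card {i // l i ≠ 0} =
        (univ.filter fun i => l i = 0).card := by
      rw [Fintype.card_subtype, sub_eq_iff_eq_add]
      exact_mod_cast (card_filter_add_card_filter_not (s := univ) fun i => l i = 0).symm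
    rw [hc, ← nsmul_eq_mul, ← sum_const]
    refine le_trans (le_of_eq (sum_congr rfl fun i hi => ?_))
      (sum_le_sum_of_subset_of_nonneg (filter_subset _ univ) fun i _ _ => sq_nonneg _)
    simp [(mem_filter.1 hi).2]

end Pool.Agent.MP_e9d43c_an.H44
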