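import Pool.Agent.MP_e9d43c_an.H44.Cuntz

/-!
Homomorphisms into bounded sequences, direct sums, separability.
-/

namespace Pool.Agent.MP_e9d43c_an.H44

open Filter Topology BoundedContinuousFunction

section aux

variable {O : Type} [CStarAlgebra O]

lemma norm_le_of_pi {x : O} {ε : ℝ} (hε : 0 ≤ ε) (h : ‖x * star x * x - x‖ ≤ ε) :
    ‖x‖ ≤ 1 + ε := by
  by_contra hc
  rw [not_le] at hc
  have h1 : ‖x‖ * ‖x‖ * (‖x‖ * ‖x‖) ≤ ‖x‖ * ‖x * star x * x‖ := by
    have a1 := CStarRing.norm_star_mul_self (x := x)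
    have a2 := CStarRing.norm_star_mul_self (x := star x * x)
    have a3 := norm_mul_le (star x) (x * star x * x)
    rw [star_mul, star_star, a1] at a2
    rw [norm_star] at a3
    rw [← a2]
    simpa only [mul_assoc] using a3
  have h2 := norm_le_norm_add_norm_sub' (x * star x * x) x
  have h3 : 0 < ‖x‖ := by linarith
  have h4 : ‖x‖ * ‖x‖ * ‖x‖ ≤ ‖x‖ + ε := by
    have : ‖x‖ * (‖x‖ * ‖x‖ * ‖x‖) ≤ ‖x‖ * (‖x‖ + ε) := by nlinarith
    exact le_of_mul_le_mul_left this h3
  have h5 : 1 + 2 * ε < ‖x‖ * ‖x‖ := by nlinarith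
  nlinarith

/-- Finite diagonal sums. -/
noncomputable def diagSum {s : ℕ → O} (hs : Iso s) (n : ℕ) : (ℕ →ᵇ O) →⋆ₙₐ[ℂ] O where
  toFun a := ∑ D ∈ Finset.range n, tt s D * a D * star (tt s D)
  map_smul' c a := by simp [Finset.smul_sum]
  map_zero' := by simp
  map_add' a b := by simp [mul_add, add_mul, Finset.sum_add_distrib]
  map_mul' a b := by
    rw [Finset.sum_mul_sum]
    refine Finset.sum_congr rfl fun D hD => ?_
    have : ∀ E, tt s D * a D * star (tt s D) * (tt s E * b E * star (tt s E)) =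
        if D = E then tt s D * (a D * b E) * star (tt s E) else 0 := fun E => by
      have := tt_orth hs D E
      calc _ = tt s D * a D * (star (tt s D) * tt s E) * b E * star (tt s E) := by
            simp only [mul_assoc]
        _ = _ := by rw [this]; split_ifs <;> simp [mul_assoc]
    simp [this, hD]
  map_star' a := by simp [star_sum, mul_assoc]

/-- A family of maps to `O`, as a map to bounded sequences. -/
noncomputable def seqHom {A : Type} [CStarAlgebra A] (f : ℕ → A →⋆ₙₐ[ℂ] O) :
    A →⋆ₙₐ[ℂ] (ℕ →ᵇ O) where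
  toFun a := ofNormedAddCommGroupDiscrete (fun n => f n a) ‖a‖
    fun n => NonUnitalStarAlgHom.norm_apply_le (f n) a
  map_smul' c a := by ext n; exact map_smul (f n) c a
  map_zero' := by ext n; exact map_zero (f n)
  map_add' a b := by ext n; exact map_add (f n) a b
  map_mul' a b := by ext n; exact map_mul (f n) a b
  map_star' a := by ext n; exact map_star (f n) a

/-- Evaluation. -/
def evalHom (n : ℕ) : (ℕ →ᵇ O) →⋆ₙₐ[ℂ] O where
  toFun a := a n
  map_smul' _ _ := rfl
  map_zero' := rfl
  map_add' _ _ := rfl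
  map_mul' _ _ := rfl
  map_star' _ := rfl

/-- Direct sum of two homomorphisms. -/
noncomputable def dirSum {A M : Type} [CStarAlgebra A] [Ring M] [StarRing M] [Algebra ℂ M] {σ : ℕ → M}
    (hσ : Iso σ) (φ ψ : A →⋆ₙₐ[ℂ] M) : A →⋆ₙₐ[ℂ] M where
  toFun a := σ 0 * φ a * star (σ 0) + σ 1 * ψ a * star (σ 1)
  map_smul' c a := by simp
  map_zero' := by simp
  map_add' a b := by simp only [map_add]; noncomm_ring
  map_mul' a b := by
    have h00 := hσ 0 two_pos 0 two_pos
    have h01 := hσ 0 two_pos 1 one_lt_two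
    have h10 := hσ 1 one_lt_two 0 two_pos
    have h11 := hσ 1 one_lt_two 1 one_lt_two
    simp only [if_true, zero_ne_one, one_ne_zero, if_false] at h00 h01 h10 h11
    have e : ∀ i j (x y : M), σ i * x * star (σ i) * (σ j * y * star (σ j)) =
        σ i * x * (star (σ i) * σ j) * y * star (σ j) := fun i j x y => by simp only [mul_assoc]
    simp only [map_mul, add_mul, mul_add, e, h00, h01, h10, h11]
    simp [mul_assoc]
  map_star' a := by simp [map_star, mul_assoc]

lemma dirSum_compress {A M : Type} [CStarAlgebra A] [Ring M] [StarRing M] [Algebra ℂ M]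
    {σ : ℕ → M} (hσ : Iso σ) (φ ψ : A →⋆ₙₐ[ℂ] M) (a : A) :
    star (σ 0) * dirSum hσ φ ψ a * σ 0 = φ a ∧ star (σ 1) * dirSum hσ φ ψ a * σ 1 = ψ a := by
  have h00 := hσ 0 two_pos 0 two_pos
  have h01 := hσ 0 two_pos 1 one_lt_two
  have h10 := hσ 1 one_lt_two 0 two_pos
  have h11 := hσ 1 one_lt_two 1 one_lt_two
  simp only [if_true, zero_ne_one, one_ne_zero, if_false] at h00 h01 h10 h11
  have e : ∀ i, star (σ i) * dirSum hσ φ ψ a * σ i =
      (star (σ i) * σ 0) * φ a * (star (σ 0) * σ i) +
        (star (σ i) * σ 1) * ψ a * (star (σ 1) * σ i) := fun i => by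
    change star (σ i) * (σ 0 * φ a * star (σ 0) + σ 1 * ψ a * star (σ 1)) * σ i = _
    noncomm_ring
  simp [e, h00, h01, h10, h11]

lemma separable_adjoin {B : Type} [CStarAlgebra B] (Y : Fin 5 → B) :
    TopologicalSpace.SeparableSpace
      (StarAlgebra.adjoin ℂ (Set.range Y)).topologicalClosure := by
  apply TopologicalSpace.IsSeparable.separableSpace
  refine TopologicalSpace.IsSeparable.closure
    (s := (StarAlgebra.adjoin ℂ (Set.range Y) : Set B)) ?_
  have h1 : Set.range Y ∪ star (Set.range Y) = Set.range (Sum.elim Y fun i => star (Y i)) := by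
    rw [Set.Sum.elim_range]
    congr 1
    ext b
    simp only [Set.mem_star, Set.mem_range]
    exact exists_congr fun i => ⟨fun h => by rw [h, star_star], fun h => by rw [← h, star_star]⟩
  have h2 : (StarAlgebra.adjoin ℂ (Set.range Y) : Set B) =
      Submodule.span ℂ (Submonoid.closure (Set.range (Sum.elim Y fun i => star (Y i))) : Set B) := by
    rw [← Algebra.adjoin_eq_span, ← h1, ← StarAlgebra.adjoin_toSubalgebra]; rfl
  rw [h2, ← FreeMonoid.mrange_lift]
  have : Countable (FreeMonoid (Fin 5 ⊕ Fin 5)) := FreeMonoid.toList.injective.countable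
  exact (Set.countable_range _).isSeparable.span

end aux

end Pool.Agent.MP_e9d43c_an.H44
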