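import Pool.Agent.MP_e9d43c_an.H44.Expander

/-!
The graded binary tree, the two shifts on finitely supported functions, and localization to
balls (property A of the tree).
-/

namespace Pool.Agent.MP_e9d43c_an.H44

open Finset Matrix

/-- Vertices: a level and a binary label. -/
abbrev Om := ℤ × ℕ

/-- Finitely supported vectors. -/
abbrev Vec := Om →₀ ℂ

/-- The two children. -/
def up (i : ℕ) (ω : Om) : Om := (ω.1 + 1, 2 * ω.2 + i)

/-- The parent. -/
def par (ω : Om) : Om := (ω.1 - 1, ω.2 / 2)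

lemma up_injective (i : ℕ) : Function.Injective (up i) := by
  rintro ⟨a, b⟩ ⟨c, d⟩ h
  simp only [up, Prod.mk.injEq] at h ⊢
  omega

lemma par_up {i : ℕ} (hi : i < 2) (ω : Om) : par (up i ω) = ω := by
  obtain ⟨a, b⟩ := ω
  simp only [up, par, Prod.mk.injEq]
  omega

lemma up_par (ω : Om) : up (ω.2 % 2) (par ω) = ω := by
  obtain ⟨a, b⟩ := ω
  simp only [up, par, Prod.mk.injEq]
  omega

lemma fst_iterate_par (j : ℕ) (ω : Om) : (par^[j] ω).1 = ω.1 - j := by
  induction j with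
  | zero => simp
  | succ j ih => rw [Function.iterate_succ_apply', par, ih]; push_cast; ring

/-- Squared norm. -/
noncomputable def nsq (h : Vec) : ℝ := ∑ ω ∈ h.support, ‖h ω‖ ^ 2

lemma nsq_nonneg (h : Vec) : 0 ≤ nsq h := sum_nonneg fun _ _ => sq_nonneg _

lemma nsq_eq {h : Vec} {F : Finset Om} (hF : h.support ⊆ F) : nsq h = ∑ ω ∈ F, ‖h ω‖ ^ 2 :=
  sum_subset hF fun ω _ hω => by simp [Finsupp.notMem_support_iff.1 hω]

lemma sum_le_nsq (h : Vec) (F : Finset Om) : ∑ ω ∈ F, ‖h ω‖ ^ 2 ≤ nsq h := by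
  rw [nsq_eq (subset_union_left (s₂ := F))]
  exact sum_le_sum_of_subset_of_nonneg subset_union_right fun _ _ _ => sq_nonneg _

lemma nsq_add_le (g h : Vec) : nsq (g + h) ≤ 2 * nsq g + 2 * nsq h := by
  have h1 := sum_le_nsq g (g + h).support
  have h2 := sum_le_nsq h (g + h).support
  have h3 : nsq (g + h) ≤ ∑ ω ∈ (g + h).support, (2 * ‖g ω‖ ^ 2 + 2 * ‖h ω‖ ^ 2) :=
    sum_le_sum fun ω _ => norm_add_sq_le_two _ _
  rw [sum_add_distrib, ← mul_sum, ← mul_sum] at h3
  linarith

lemma nsq_smul (c : ℂ) (h : Vec) : nsq (c • h) = ‖c‖ ^ 2 * nsq h := by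
  rw [nsq_eq (F := h.support) Finsupp.support_smul, nsq, mul_sum]
  exact sum_congr rfl fun ω _ => by rw [Finsupp.smul_apply, norm_smul, mul_pow]

lemma vsq_eq_nsq {h : Vec} {F : Finset Om} (hF : h.support ⊆ F) :
    vsq (fun ω : F => h ω) = nsq h := by
  rw [nsq_eq hF, vsq]
  exact sum_coe_sort F fun ω => ‖h ω‖ ^ 2

/-- The shifts. -/
noncomputable def Sup (i : ℕ) : Vec →ₗ[ℂ] Vec := Finsupp.lmapDomain ℂ ℂ (up i)

/-- Their adjoints. -/
noncomputable def Sdn (i : ℕ) : Vec →ₗ[ℂ] Vec := Finsupp.lcomapDomain (up i) (up_injective i)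

lemma Sup_apply_up (i : ℕ) (h : Vec) (ω : Om) : Sup i h (up i ω) = h ω :=
  Finsupp.mapDomain_apply (up_injective i) h ω

lemma Sup_apply_of_not (i : ℕ) (h : Vec) {ω : Om} (hω : ω ∉ Set.range (up i)) : Sup i h ω = 0 :=
  Finsupp.mapDomain_of_notMem_range h ω hω

lemma Sdn_apply (i : ℕ) (h : Vec) (ω : Om) : Sdn i h ω = h (up i ω) := rfl

lemma nsq_Sup (i : ℕ) (h : Vec) : nsq (Sup i h) = nsq h := by
  rw [nsq_eq (h := Sup i h) (F := h.support.image (up i)) Finsupp.mapDomain_support,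
    sum_image (up_injective i).injOn]
  exact sum_congr rfl fun ω _ => by rw [Sup_apply_up]

lemma nsq_Sdn (i : ℕ) (h : Vec) : nsq (Sdn i h) ≤ nsq h := by
  have := sum_le_nsq h ((Sdn i h).support.image (up i))
  rwa [sum_image (up_injective i).injOn] at this

/-- Restriction to a finite set. -/
noncomputable def cut (B : Finset Om) : Vec →ₗ[ℂ] Vec where
  toFun h := h.filter (· ∈ B)
  map_add' _ _ := Finsupp.filter_add
  map_smul' _ _ := Finsupp.filter_smul

lemma cut_apply (B : Finset Om) (h : Vec) (ω : Om) : cut B h ω = if ω ∈ B then h ω else 0 := rfl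

/-- Descendants of `c` down to depth `N - 1`. -/
def ball : ℕ → Om → Finset Om
  | 0, _ => ∅
  | N + 1, c => insert c ((ball N c).image (up 0) ∪ (ball N c).image (up 1))

lemma card_ball (N : ℕ) (c : Om) : (ball N c).card + 1 ≤ 2 ^ N := by
  induction N with
  | zero => simp [ball]
  | succ N ih =>
    have h1 := card_insert_le c ((ball N c).image (up 0) ∪ (ball N c).image (up 1))
    have h2 := card_union_le ((ball N c).image (up 0)) ((ball N c).image (up 1))
    have h3 := card_image_le (s := ball N c) (f := up 0)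
    have h4 := card_image_le (s := ball N c) (f := up 1)
    rw [ball, pow_succ]
    omega

lemma mem_ball {N : ℕ} {c ω : Om} : ω ∈ ball N c ↔ ∃ j < N, par^[j] ω = c := by
  induction N generalizing ω with
  | zero => simp [ball]
  | succ N ih =>
    simp only [ball, mem_insert, mem_union, mem_image]
    constructor
    · rintro (rfl | ⟨a, ha, rfl⟩ | ⟨a, ha, rfl⟩)
      · exact ⟨0, Nat.succ_pos _, rfl⟩
      · obtain ⟨j, hj, e⟩ := ih.1 ha
        exact ⟨j + 1, by omega, by rw [Function.iterate_succ_apply, par_up (by norm_num), e]⟩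
      · obtain ⟨j, hj, e⟩ := ih.1 ha
        exact ⟨j + 1, by omega, by rw [Function.iterate_succ_apply, par_up (by norm_num), e]⟩
    · rintro ⟨j, hj, e⟩
      rcases j with _ | j
      · exact Or.inl e
      · have h : par ω ∈ ball N c := ih.2 ⟨j, by omega, e⟩
        rcases Nat.mod_two_eq_zero_or_one ω.2 with h2 | h2
        · exact Or.inr (Or.inl ⟨_, h, by rw [← h2, up_par]⟩)
        · exact Or.inr (Or.inr ⟨_, h, by rw [← h2, up_par]⟩)

/-- Ancestors. -/
def anc (N : ℕ) (ω : Om) : Finset Om := (range N).image fun j => par^[j] ω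

lemma mem_anc {N : ℕ} {c ω : Om} : c ∈ anc N ω ↔ ω ∈ ball N c := by
  simp [anc, mem_ball]

lemma card_anc (N : ℕ) (ω : Om) : (anc N ω).card = N := by
  rw [anc, card_image_of_injective _ fun i j h => ?_, card_range]
  have := congrArg Prod.fst h
  simp only [fst_iterate_par] at this
  omega

lemma sum_nsq_filter (C : Finset Om) (p : Om → Om → Prop) [∀ c ω, Decidable (p c ω)] (h : Vec) :
    ∑ c ∈ C, nsq (h.filter (p c)) =
      ∑ ω ∈ h.support, ((C.filter fun c => p c ω).card : ℝ) * ‖h ω‖ ^ 2 := by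
  have : ∀ c, nsq (h.filter (p c)) = ∑ ω ∈ h.support, if p c ω then ‖h ω‖ ^ 2 else 0 := fun c => by
    rw [nsq_eq (F := h.support) (by rw [Finsupp.support_filter]; exact filter_subset _ _)]
    refine sum_congr rfl fun ω _ => ?_
    rw [Finsupp.filter_apply]
    split_ifs <;> simp
  simp only [this]
  rw [sum_comm]
  refine sum_congr rfl fun ω _ => ?_
  rw [← sum_filter, sum_const, nsmul_eq_mul]

lemma sum_cut_le (N : ℕ) (C : Finset Om) (h : Vec) :
    ∑ c ∈ C, nsq (cut (ball N c) h) ≤ N * nsq h := by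
  refine (sum_nsq_filter C (fun c ω => ω ∈ ball N c) h).trans_le ?_
  rw [nsq, mul_sum]
  refine sum_le_sum fun ω _ => mul_le_mul_of_nonneg_right ?_ (sq_nonneg _)
  rw [Nat.cast_le]
  exact (card_le_card fun c hc => mem_anc.2 (mem_filter.1 hc).2).trans (card_anc N ω).le

lemma sum_cut_eq (N : ℕ) (C : Finset Om) (h : Vec) (hC : ∀ ω ∈ h.support, anc N ω ⊆ C) :
    ∑ c ∈ C, nsq (cut (ball N c) h) = N * nsq h := by
  refine (sum_nsq_filter C (fun c ω => ω ∈ ball N c) h).trans ?_
  rw [nsq, mul_sum]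
  refine sum_congr rfl fun ω hω => ?_
  congr 2
  refine Eq.trans ?_ (card_anc N ω)
  congr 1
  ext c
  rw [mem_filter, mem_anc]
  exact ⟨fun h => h.2, fun h => ⟨hC ω hω (mem_anc.2 h), h⟩⟩

lemma sum_dif_le {i : ℕ} (hi : i < 2) (N : ℕ) (C : Finset Om) (h : Vec) :
    ∑ c ∈ C, nsq (h.filter fun ω => ¬ (ω ∈ ball N c ↔ up i ω ∈ ball N c)) ≤ 2 * nsq h := by
  refine (sum_nsq_filter C (fun c ω => ¬ (ω ∈ ball N c ↔ up i ω ∈ ball N c)) h).trans_le ?_
  rw [nsq, mul_sum]
  refine sum_le_sum fun ω _ => mul_le_mul_of_nonneg_right ?_ (sq_nonneg _)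
  have : (C.filter fun c => ¬ (ω ∈ ball N c ↔ up i ω ∈ ball N c)) ⊆ {up i ω, par^[N - 1] ω} := by
    intro c hc
    by_contra hne
    rw [mem_insert, mem_singleton, not_or] at hne
    apply (mem_filter.1 hc).2
    rw [mem_ball, mem_ball]
    constructor
    · rintro ⟨j, hj, e⟩
      refine ⟨j + 1, ?_, by rw [Function.iterate_succ_apply, par_up hi, e]⟩
      by_contra hlt
      exact hne.2 (by rw [← e]; congr 1; omega)
    · rintro ⟨j, hj, e⟩
      rcases j with _ | j
      · exact absurd e.symm hne.1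
      · exact ⟨j, by omega, by rwa [Function.iterate_succ_apply, par_up hi] at e⟩
  exact_mod_cast (card_le_card this).trans (card_le_two)

/-- Bounded operators whose commutators with the ball cut-offs are uniformly summable. -/
def Loc (T : Vec →ₗ[ℂ] Vec) : Prop :=
  ∃ b : ℝ, 0 ≤ b ∧ (∀ h, nsq (T h) ≤ b * nsq h) ∧ ∀ (N : ℕ) (C : Finset Om) (h : Vec),
    ∑ c ∈ C, nsq (T (cut (ball N c) h) - cut (ball N c) (T h)) ≤ b * nsq h

lemma Loc.smul_id (z : ℂ) : Loc (z • LinearMap.id) := by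
  refine ⟨‖z‖ ^ 2, sq_nonneg _, fun h => (nsq_smul z h).le, fun N C h => ?_⟩
  have : ∀ c, (z • LinearMap.id : Vec →ₗ[ℂ] Vec) (cut (ball N c) h) -
      cut (ball N c) ((z • LinearMap.id : Vec →ₗ[ℂ] Vec) h) = 0 := fun c => by simp
  simp only [this, nsq, Finsupp.support_zero, sum_empty, sum_const_zero]
  exact mul_nonneg (sq_nonneg _) (nsq_nonneg h)

lemma Loc.add {S T : Vec →ₗ[ℂ] Vec} (hS : Loc S) (hT : Loc T) : Loc (S + T) := by
  obtain ⟨a, a0, a1, a2⟩ := hS
  obtain ⟨b, b0, b1, b2⟩ := hT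
  refine ⟨2 * a + 2 * b, by positivity, fun h => ?_, fun N C h => ?_⟩
  · have := nsq_add_le (S h) (T h)
    rw [LinearMap.add_apply]
    nlinarith [a1 h, b1 h]
  · have : ∀ c, nsq ((S + T) (cut (ball N c) h) - cut (ball N c) ((S + T) h)) ≤
        2 * nsq (S (cut (ball N c) h) - cut (ball N c) (S h)) +
        2 * nsq (T (cut (ball N c) h) - cut (ball N c) (T h)) := fun c => by
      refine le_trans (le_of_eq ?_) (nsq_add_le _ _)
      congr 1
      simp only [LinearMap.add_apply, map_add]; abel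
    refine (sum_le_sum fun c _ => this c).trans ?_
    rw [sum_add_distrib, ← mul_sum, ← mul_sum]
    nlinarith [a2 N C h, b2 N C h]

lemma Loc.comp {S T : Vec →ₗ[ℂ] Vec} (hS : Loc S) (hT : Loc T) : Loc (S ∘ₗ T) := by
  obtain ⟨a, a0, a1, a2⟩ := hS
  obtain ⟨b, b0, b1, b2⟩ := hT
  refine ⟨4 * (a * b), by positivity, fun h => ?_, fun N C h => ?_⟩
  · have h1 := a1 (T h)
    have h2 := mul_le_mul_of_nonneg_left (b1 h) a0
    have h3 := mul_nonneg (mul_nonneg a0 b0) (nsq_nonneg h)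
    rw [LinearMap.comp_apply]
    nlinarith
  · have : ∀ c, nsq ((S ∘ₗ T) (cut (ball N c) h) - cut (ball N c) ((S ∘ₗ T) h)) ≤
        2 * (a * nsq (T (cut (ball N c) h) - cut (ball N c) (T h))) +
        2 * nsq (S (cut (ball N c) (T h)) - cut (ball N c) (S (T h))) := fun c => by
      have h1 := nsq_add_le (S (T (cut (ball N c) h) - cut (ball N c) (T h)))
        (S (cut (ball N c) (T h)) - cut (ball N c) (S (T h)))
      have h2 := a1 (T (cut (ball N c) h) - cut (ball N c) (T h))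
      rw [map_sub S, sub_add_sub_cancel] at h1
      rw [map_sub S] at h2
      simp only [LinearMap.comp_apply]
      linarith
    refine (sum_le_sum fun c _ => this c).trans ?_
    rw [sum_add_distrib, ← mul_sum, ← mul_sum, ← mul_sum]
    have h1 := mul_le_mul_of_nonneg_left (b2 N C h) a0
    have h2 := a2 N C (T h)
    have h3 := mul_le_mul_of_nonneg_left (b1 h) a0
    nlinarith

lemma nsq_congr {g h : Vec} (e : ∀ ω, ‖g ω‖ = ‖h ω‖) : nsq g = nsq h := by
  rw [nsq_eq (subset_union_left (s₂ := h.support)), nsq_eq (subset_union_right (s₁ := g.support))]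
  exact sum_congr rfl fun ω _ => by rw [e]

lemma loc_Sup {i : ℕ} (hi : i < 2) : Loc (Sup i) := by
  refine ⟨2, zero_le_two, fun h => by rw [nsq_Sup]; linarith [nsq_nonneg h], fun N C h => ?_⟩
  refine le_trans (le_of_eq (sum_congr rfl fun c _ => ?_)) (sum_dif_le hi N C h)
  rw [← nsq_Sup i (h.filter _)]
  refine nsq_congr fun ω => ?_
  rw [Finsupp.sub_apply, cut_apply]
  by_cases hω : ω ∈ Set.range (up i)
  · obtain ⟨ω, rfl⟩ := hω
    simp only [Sup_apply_up, cut_apply, Finsupp.filter_apply]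
    by_cases h1 : ω ∈ ball N c <;> by_cases h2 : up i ω ∈ ball N c <;> simp [h1, h2]
  · simp [Sup_apply_of_not i _ hω]

lemma loc_Sdn {i : ℕ} (hi : i < 2) : Loc (Sdn i) := by
  refine ⟨2, zero_le_two, fun h => by linarith [nsq_nonneg h, nsq_Sdn i h], fun N C h => ?_⟩
  refine le_trans (le_of_eq (sum_congr rfl fun c _ => ?_))
    ((sum_dif_le hi N C (Sdn i h)).trans (by linarith [nsq_Sdn i h]))
  refine nsq_congr fun ω => ?_
  simp only [Finsupp.sub_apply, Sdn_apply, cut_apply, Finsupp.filter_apply]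
  by_cases h1 : ω ∈ ball N c <;> by_cases h2 : up i ω ∈ ball N c <;> simp [h1, h2]

lemma matrix_step {D : ℕ} [NeZero D] (T : Fin 5 → Vec →ₗ[ℂ] Vec)
    (hb : ∀ i h, nsq (T i h) ≤ (1 + 1 / 30000) * nsq h) (B : Finset Om) (hB : 2 * B.card ≤ D ^ 2)
    (ξ : Gd D → Vec) (hξF : ∀ j, (ξ j).support ⊆ B) :
    (1 / 30000) ^ 2 * ∑ j, nsq (ξ j) ≤
      ∑ i, ∑ j, nsq (T i (ξ j) - ∑ l, yMat D i l j • ξ l) := by
  classical
  by_contra hc
  rw [not_le] at hc
  obtain ⟨F, hBF, hTF⟩ : ∃ F : Finset Om, B ⊆ F ∧ ∀ i j, (T i (ξ j)).support ⊆ F :=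
    ⟨B ∪ univ.biUnion fun i => univ.biUnion fun j => (T i (ξ j)).support, subset_union_left,
      fun i j => ((subset_biUnion_of_mem (fun j => (T i (ξ j)).support) (mem_univ j)).trans
      (subset_biUnion_of_mem (fun i => univ.biUnion fun j => (T i (ξ j)).support)
        (mem_univ i))).trans subset_union_right⟩
  have hsum : ∀ (f : Gd D → Vec) (v : Gd D → ℂ),
      (∀ j, (f j).support ⊆ F) → (∑ j, v j • f j).support ⊆ F := fun f v hf =>
    Finsupp.support_finsetSum.trans (biUnion_subset.2 fun j _ =>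
      Finsupp.support_smul.trans (hf j))
  have hξF' : ∀ j, (ξ j).support ⊆ F := fun j => (hξF j).trans hBF
  let Ξ : Matrix F (Gd D) ℂ := of fun ω j => ξ j ω
  let Z : Fin 5 → Matrix F (Gd D) ℂ := fun i => of fun ω j => T i (ξ j) ω
  have hmul : ∀ (f : Gd D → Vec) (v : Gd D → ℂ),
      (of fun (ω : F) j => f j ω) *ᵥ v = fun ω : F => (∑ j, v j • f j) ω := fun f v => by
    ext ω
    simp only [mulVec, dotProduct, of_apply, Finsupp.finsetSum_apply, Finsupp.smul_apply,
      smul_eq_mul, mul_comm]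
  have fΞ : fsq Ξ = ∑ j, nsq (ξ j) := sum_congr rfl fun j _ => vsq_eq_nsq (hξF' j)
  have fZ : ∀ i, fsq (Z i - Ξ * yMat D i) =
      ∑ j, nsq (T i (ξ j) - ∑ l, yMat D i l j • ξ l) := fun i =>
    sum_congr rfl fun j _ => by
      rw [← vsq_eq_nsq (F := F)
        (Finsupp.support_sub.trans (union_subset (hTF i j) (hsum _ _ hξF')))]
      congr 1
      ext ω
      simp only [Z, Ξ, Matrix.sub_apply, mul_apply, of_apply, Finsupp.sub_apply,
        Finsupp.finsetSum_apply, Finsupp.smul_apply, smul_eq_mul, mul_comm]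
  have hr : 2 * Ξ.rank ≤ D ^ 2 := by
    have h1 := rank_le_card_of_support_subset Ξ (B.subtype (· ∈ F)) (by
      intro ω hω
      rw [mem_coe, mem_subtype]
      by_contra h
      apply hω
      ext j
      exact Finsupp.notMem_support_iff.1 fun h' => h (hξF j h'))
    have h2 : (B.subtype (· ∈ F)).card ≤ B.card := by
      rw [card_subtype]; exact card_filter_le _ _
    omega
  have h0 : ∀ i, 0 ≤ ∑ j, nsq (T i (ξ j) - ∑ l, yMat D i l j • ξ l) :=
    fun i => sum_nonneg fun _ _ => nsq_nonneg _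
  have hle := no_small_rank (Ξ := Ξ) (Z := Z) hr (fun i v => by
    rw [hmul, hmul, vsq_eq_nsq (hsum _ _ (hTF i)), vsq_eq_nsq (hsum _ _ hξF')]
    have := hb i (∑ j, v j • ξ j)
    simpa only [map_sum, map_smul] using this) (fun i => by
    rw [fZ, fΞ]
    exact (single_le_sum (fun i _ => h0 i) (mem_univ i)).trans hc.le)
  rw [← fΞ] at hc
  have h1 := sum_nonneg fun i (_ : i ∈ univ) => h0 i
  linarith

/-- Local operators have no almost intertwiner with the expander unitaries of large size. -/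
theorem localize (T : Fin 5 → Vec →ₗ[ℂ] Vec) (hT : ∀ i, Loc (T i))
    (hb : ∀ i h, nsq (T i h) ≤ (1 + 1 / 30000) * nsq h) :
    ∃ N : ℕ, ∀ (D : ℕ) [NeZero D], 2 * 2 ^ N ≤ D ^ 2 → ∀ g : Gd D → Vec, (∀ j, 1 / 2 ≤ nsq (g j)) →
      ¬ ∀ i j, nsq (T i (g j) - ∑ l, yMat D i l j • g l) ≤ (1 / 30000) ^ 2 / 40 := by
  classical
  choose b b0 _ b2 using hT
  obtain ⟨N, hN⟩ := exists_nat_gt (4 * (∑ i, b i) * 30000 ^ 2)
  refine ⟨N, fun D _ hD g hg he => ?_⟩
  set ε : ℝ := (1 / 30000) ^ 2 with hε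
  let C : Finset Om := univ.biUnion fun j => (g j).support.biUnion (anc N)
  set Γ : ℝ := ∑ j, nsq (g j) with hΓ
  have hcard : (Fintype.card (Gd D) : ℝ) ≤ 2 * Γ := by
    have := sum_le_sum fun j (_ : j ∈ univ) => hg j
    rw [sum_const, card_univ, nsmul_eq_mul] at this
    linarith
  have hΓ0 : 0 < Γ := by
    have : (0 : ℝ) < Fintype.card (Gd D) := Nat.cast_pos.2 Fintype.card_pos
    linarith
  have m1 : ∑ c ∈ C, ε * ∑ j, nsq (cut (ball N c) (g j)) = ε * (N * Γ) := by
    rw [← mul_sum, sum_comm, hΓ, mul_sum univ _ (N : ℝ)]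
    congr 1
    refine sum_congr rfl fun j _ => sum_cut_eq N C (g j) fun ω hω => ?_
    exact (subset_biUnion_of_mem (anc N) hω).trans
      (subset_biUnion_of_mem (fun j => (g j).support.biUnion (anc N)) (mem_univ j))
  have m2 : ∀ i j, ∑ c ∈ C, nsq (T i (cut (ball N c) (g j)) -
      ∑ l, yMat D i l j • cut (ball N c) (g l)) ≤
      2 * (b i * nsq (g j)) + 2 * (N * (ε / 40)) := fun i j => by
    have : ∀ c, nsq (T i (cut (ball N c) (g j)) -
        ∑ l, yMat D i l j • cut (ball N c) (g l)) ≤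
        2 * nsq (T i (cut (ball N c) (g j)) - cut (ball N c) (T i (g j))) +
        2 * nsq (cut (ball N c) (T i (g j) - ∑ l, yMat D i l j • g l)) := fun c => by
      refine le_trans (le_of_eq ?_) (nsq_add_le _ _)
      simp only [map_sub, map_sum, map_smul, sub_add_sub_cancel]
    refine (sum_le_sum fun c _ => this c).trans ?_
    rw [sum_add_distrib, ← mul_sum, ← mul_sum]
    have h1 := b2 i N C (g j)
    have h2 := (sum_cut_le N C _).trans (mul_le_mul_of_nonneg_left (he i j) (Nat.cast_nonneg N))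
    linarith
  have m3 : ∑ c ∈ C, ∑ i, ∑ j, nsq (T i (cut (ball N c) (g j)) -
      ∑ l, yMat D i l j • cut (ball N c) (g l)) <
      ∑ c ∈ C, ε * ∑ j, nsq (cut (ball N c) (g j)) := by
    rw [m1, sum_comm]
    have : ∀ i, ∑ c ∈ C, ∑ j, nsq (T i (cut (ball N c) (g j)) -
        ∑ l, yMat D i l j • cut (ball N c) (g l)) ≤
        2 * (b i * Γ) + Fintype.card (Gd D) * (2 * (N * (ε / 40))) := fun i => by
      rw [sum_comm]
      refine (sum_le_sum fun j _ => m2 i j).trans (le_of_eq ?_)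
      rw [sum_add_distrib, ← mul_sum, ← mul_sum, sum_const, card_univ, nsmul_eq_mul]
    refine (sum_le_sum fun i _ => this i).trans_lt ?_
    rw [sum_add_distrib, ← mul_sum, ← sum_mul, sum_const, card_univ, Fintype.card_fin, nsmul_eq_mul]
    have h1 : (Fintype.card (Gd D) : ℝ) * (2 * (N * (ε / 40))) ≤
        2 * Γ * (2 * (N * (ε / 40))) := by gcongr
    have h2 : 4 * (∑ i, b i) < ε * N := by rw [hε]; linarith
    have h3 := mul_lt_mul_of_pos_right h2 hΓ0
    push_cast
    nlinarith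
  obtain ⟨c, -, hc⟩ := exists_lt_of_sum_lt m3
  refine absurd hc (not_lt.2 (matrix_step T hb (ball N c) ?_ (fun j => cut (ball N c) (g j))
    fun j ω hω => ?_))
  · have h3 := card_ball N c
    omega
  · by_contra h
    exact Finsupp.mem_support_iff.1 hω (if_neg h)

end Pool.Agent.MP_e9d43c_an.H44
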